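import Pool.Agent.W5h10.EO.Basic

set_option autoImplicit false
set_option linter.unusedSectionVars false

open Finset

namespace Pool.Agent.W5h10.EO

variable {V : Type*} [Fintype V] [DecidableEq V]

lemma two_of_two_le {α : Type*} {s : Finset α} (h : 2 ≤ #s) : ∃ a ∈ s, ∃ b ∈ s, a ≠ b :=
  Finset.one_lt_card.1 h

/-- The pattern `15423`, smaller windows on the first side. -/
lemma abs15423 (D : Finset (V × V)) (t : V × V → ℕ) (SX SY : ℕ) (hS : SX ≤ SY)
    (inj : ∀ p ∈ D, ∀ q ∈ D, t p = t q → p = q)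
    (wX : ∀ p ∈ D, ∀ q ∈ D, p.1 = q.1 → 4 * t p < 4 * t q + SX)
    (wY : ∀ p ∈ D, ∀ q ∈ D, p.2 = q.2 → 4 * t p < 4 * t q + SY)
    (F1 : ∀ b ∈ D, ∀ c ∈ D, ∀ d ∈ D, ∀ e ∈ D, b.2 = c.2 → c.1 = d.1 → d.2 = e.2 →
      t d < t e → t e < t c → t c < t b → t b < t d + SX → b.1 = e.1)
    (F2 : ∀ b ∈ D, ∀ c ∈ D, ∀ d ∈ D, ∀ e ∈ D, b.1 = c.1 → c.2 = d.2 → d.1 = e.1 →
      t d < t e → t e < t c → t c < t b → t b < t d + SY → b.2 = e.2) :
    #D ≤ 6 * Fintype.card V := by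
  classical
  set C1 : Finset (V × V) := {d ∈ D | ∃ e ∈ D, e.1 = d.1 ∧ t d < t e} with hC1
  set C3 : Finset (V × V) := {d ∈ D | 2 ≤ #{e ∈ D | e.1 = d.1 ∧ t d < t e}} with hC3
  set C4 : Finset (V × V) := {d ∈ C3 | 2 ≤ #{e ∈ C1 | e.2 = d.2 ∧ t d < t e}} with hC4
  have C31 : C3 ⊆ C1 := by
    intro d hd
    simp only [hC3, mem_filter] at hd
    obtain ⟨e, he, _⟩ := two_of_two_le hd.2
    simp only [mem_filter] at he
    simp only [hC1, mem_filter]
    exact ⟨hd.1, e, he.1, he.2.1, he.2.2⟩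
  have C1D : C1 ⊆ D := Finset.filter_subset _ _
  have n1 : #{c ∈ D | #{e ∈ D | e.1 = c.1 ∧ t c < t e} < 2} ≤ 2 * Fintype.card V :=
    few_succ D t Prod.fst (fun p hp q hq _ h => inj p hp q hq h) 2
  have n2 : #{c ∈ C1 | #{e ∈ C1 | e.2 = c.2 ∧ t c < t e} < 2} ≤ 2 * Fintype.card V :=
    few_succ C1 t Prod.snd (fun p hp q hq _ h => inj p (C1D hp) q (C1D hq) h) 2
  -- K1
  have K1 : ∀ d ∈ D, ∀ e ∈ D, ∀ e' ∈ D, e.1 = d.1 → e'.1 = d.1 → e ≠ e' → t d < t e →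
      t d < t e' → ∀ c ∈ C1, c.2 = d.2 → t c ≤ t e ∨ t c ≤ t e' := by
    intro d hd e he e' he' h1 h1' hne hde hde' c hc hcd
    by_contra hcon
    push Not at hcon
    have hc2 := hc
    simp only [hC1, mem_filter] at hc2
    obtain ⟨hcD, b, hb, hbc, hcb⟩ := hc2
    have w1 := wX b hb c hcD hbc
    have w2 := wY c hcD d hd hcd
    have g1 := F2 b hb c hcD d hd e he hbc hcd h1.symm hde hcon.1 hcb (by omega)
    have g2 := F2 b hb c hcD d hd e' he' hbc hcd h1'.symm hde' hcon.2 hcb (by omega)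
    exact hne (Prod.ext (h1.trans h1'.symm) (g1.symm.trans g2))
  -- K2
  have K2 : ∀ d ∈ C3, ∀ c ∈ C1, c.2 = d.2 → 4 * t c < 4 * t d + SX := by
    intro d hd c hc hcd
    simp only [hC3, mem_filter] at hd
    obtain ⟨e, he, e', he', hne⟩ := two_of_two_le hd.2
    simp only [mem_filter] at he he'
    rcases K1 d hd.1 e he.1 e' he'.1 he.2.1 he'.2.1 hne he.2.2 he'.2.2 c hc hcd with h | h
    · have := wX e he.1 d hd.1 he.2.1
      omega
    · have := wX e' he'.1 d hd.1 he'.2.1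
      omega
  have C43 : C4 ⊆ C3 := Finset.filter_subset _ _
  -- K3
  have K3 : ∀ d ∈ C4, #{e ∈ C4 | e.1 = d.1 ∧ t d < t e} < 2 := by
    intro d hd
    by_contra hcon
    push Not at hcon
    obtain ⟨f1, hf1, f2, hf2, hne⟩ := two_of_two_le hcon
    simp only [mem_filter] at hf1 hf2
    have hdD : d ∈ D := C1D (C31 (C43 hd))
    have hf1D : f1 ∈ D := C1D (C31 (C43 hf1.1))
    have hf2D : f2 ∈ D := C1D (C31 (C43 hf2.1))
    -- the later one
    have main : ∀ c' ∈ C4, c'.1 = d.1 → t d < t c' → (∀ c ∈ C1, c.2 = d.2 → t c ≤ t c') →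
        False := by
      intro c' hc' h1 h2 h3
      have hd2 := hd
      simp only [hC4, mem_filter] at hd2
      obtain ⟨e1, he1, e2, he2, hne12⟩ := two_of_two_le hd2.2
      simp only [mem_filter] at he1 he2
      have hc'2 := hc'
      simp only [hC4, mem_filter] at hc'2
      obtain ⟨b, hb, _⟩ := two_of_two_le hc'2.2
      simp only [mem_filter] at hb
      have hc'D : c' ∈ D := C1D (C31 (C43 hc'))
      have k2 := K2 c' (C43 hc') b hb.1 hb.2.1
      have k3 := wX c' hc'D d hdD h1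
      have lt : ∀ e ∈ C1, e.2 = d.2 → t d < t e → t e < t c' := by
        intro e he h4 h5
        have h6 := h3 e he h4
        rcases Nat.lt_or_ge (t e) (t c') with h | h
        · exact h
        · exfalso
          have h7 : e = c' := inj e (C1D he) c' hc'D (by omega)
          have h8 : e = d := Prod.ext (by rw [h7, h1]) h4
          rw [h8] at h5
          omega
      have g1 := F1 b (C1D hb.1) c' hc'D d hdD e1 (C1D he1.1) hb.2.1 h1 he1.2.1.symm he1.2.2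
        (lt e1 he1.1 he1.2.1 he1.2.2) hb.2.2 (by omega)
      have g2 := F1 b (C1D hb.1) c' hc'D d hdD e2 (C1D he2.1) hb.2.1 h1 he2.2.1.symm he2.2.2
        (lt e2 he2.1 he2.2.1 he2.2.2) hb.2.2 (by omega)
      exact hne12 (Prod.ext (g1.symm.trans g2) (he1.2.1.trans he2.2.1.symm))
    have k1 := K1 d hdD f1 hf1D f2 hf2D hf1.2.1 hf2.2.1 hne hf1.2.2 hf2.2.2
    rcases Nat.le_total (t f1) (t f2) with h | h
    · apply main f2 hf2.1 hf2.2.1 hf2.2.2
      intro c hc hcd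
      rcases k1 c hc hcd with h' | h' <;> omega
    · apply main f1 hf1.1 hf1.2.1 hf1.2.2
      intro c hc hcd
      rcases k1 c hc hcd with h' | h' <;> omega
  have n3 : #C4 ≤ 2 * Fintype.card V := by
    have := few_succ C4 t Prod.fst
      (fun p hp q hq _ h => inj p (C1D (C31 (C43 hp))) q (C1D (C31 (C43 hq))) h) 2
    rwa [Finset.filter_true_of_mem K3] at this
  have hcover : D ⊆ {c ∈ D | #{e ∈ D | e.1 = c.1 ∧ t c < t e} < 2} ∪
      ({c ∈ C1 | #{e ∈ C1 | e.2 = c.2 ∧ t c < t e} < 2} ∪ C4) := by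
    intro d hd
    simp only [mem_union]
    by_cases h1 : #{e ∈ D | e.1 = d.1 ∧ t d < t e} < 2
    · left; simp only [mem_filter]; exact ⟨hd, h1⟩
    · right
      have hd3 : d ∈ C3 := by simp only [hC3, mem_filter]; exact ⟨hd, by omega⟩
      by_cases h2 : #{e ∈ C1 | e.2 = d.2 ∧ t d < t e} < 2
      · left; simp only [mem_filter]; exact ⟨C31 hd3, h2⟩
      · right; simp only [hC4, mem_filter]; exact ⟨hd3, by omega⟩
  have := Finset.card_le_card hcover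
  have u1 := Finset.card_union_le {c ∈ D | #{e ∈ D | e.1 = c.1 ∧ t c < t e} < 2}
    ({c ∈ C1 | #{e ∈ C1 | e.2 = c.2 ∧ t c < t e} < 2} ∪ C4)
  have u2 := Finset.card_union_le {c ∈ C1 | #{e ∈ C1 | e.2 = c.2 ∧ t c < t e} < 2} C4
  omega

/-- The pattern `14532`, smaller windows on the first side. -/
lemma abs14532 (D : Finset (V × V)) (t : V × V → ℕ) (SX SY : ℕ) (hS : SX ≤ SY)
    (inj : ∀ p ∈ D, ∀ q ∈ D, t p = t q → p = q)
    (wX : ∀ p ∈ D, ∀ q ∈ D, p.1 = q.1 → 4 * t p < 4 * t q + SX)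
    (wY : ∀ p ∈ D, ∀ q ∈ D, p.2 = q.2 → 4 * t p < 4 * t q + SY)
    (F1 : ∀ b ∈ D, ∀ c ∈ D, ∀ d ∈ D, ∀ e ∈ D, b.2 = c.2 → c.1 = d.1 → d.2 = e.2 →
      t e < t d → t d < t b → t b < t c → t b < t e + SX → b.1 = e.1)
    (F2 : ∀ b ∈ D, ∀ c ∈ D, ∀ d ∈ D, ∀ e ∈ D, b.1 = c.1 → c.2 = d.2 → d.1 = e.1 →
      t e < t d → t d < t b → t b < t c → t b < t e + SY → b.2 = e.2) :
    #D ≤ 6 * Fintype.card V := by
  classical
  set C1 : Finset (V × V) := {d ∈ D | 2 ≤ #{e ∈ D | e.1 = d.1 ∧ t e < t d}} with hC1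
  set C2 : Finset (V × V) := {d ∈ C1 | 2 ≤ #{e ∈ C1 | e.2 = d.2 ∧ t e < t d}} with hC2
  have C1D : C1 ⊆ D := Finset.filter_subset _ _
  have C21 : C2 ⊆ C1 := Finset.filter_subset _ _
  have n1 : #{c ∈ D | #{e ∈ D | e.1 = c.1 ∧ t e < t c} < 2} ≤ 2 * Fintype.card V :=
    few_pred D t Prod.fst (fun p hp q hq _ h => inj p hp q hq h) 2
  have n2 : #{c ∈ C1 | #{e ∈ C1 | e.2 = c.2 ∧ t e < t c} < 2} ≤ 2 * Fintype.card V :=
    few_pred C1 t Prod.snd (fun p hp q hq _ h => inj p (C1D hp) q (C1D hq) h) 2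
  have K1 : ∀ c ∈ D, ∀ b ∈ D, b.1 = c.1 → t b < t c → ∀ d ∈ C1, d.2 = c.2 → t d < t c →
      t b < t d := by
    intro c hc b hb hbc hlt d hd hdc hdlt
    by_contra hcon
    have hdD := C1D hd
    have hne : t d ≠ t b := by
      intro h
      have h1 : d = b := inj d hdD b hb h
      have h2 : d = c := Prod.ext (by rw [h1, hbc]) hdc
      rw [h2] at hdlt
      omega
    have hlt' : t d < t b := by omega
    have hd2 := hd
    simp only [hC1, mem_filter] at hd2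
    obtain ⟨e, he, e', he', hne'⟩ := two_of_two_le hd2.2
    simp only [mem_filter] at he he'
    have w1 := wY c hc d hdD hdc.symm
    have w2 := wX d hdD e he.1 he.2.1.symm
    have w3 := wX d hdD e' he'.1 he'.2.1.symm
    have g1 := F2 b hb c hc d hdD e he.1 hbc hdc.symm he.2.1.symm he.2.2 hlt' hlt (by omega)
    have g2 := F2 b hb c hc d hdD e' he'.1 hbc hdc.symm he'.2.1.symm he'.2.2 hlt' hlt (by omega)
    exact hne' (Prod.ext (he.2.1.trans he'.2.1.symm) (g1.symm.trans g2))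
  have K3 : ∀ c ∈ C2, #{e ∈ C2 | e.1 = c.1 ∧ t e < t c} < 1 := by
    intro c hc
    by_contra hcon
    push Not at hcon
    obtain ⟨d, hd⟩ := Finset.card_pos.1 (show 0 < #{e ∈ C2 | e.1 = c.1 ∧ t e < t c} by omega)
    simp only [mem_filter] at hd
    obtain ⟨hd, hdc, hlt⟩ := hd
    have hcD := C1D (C21 hc)
    have hdD := C1D (C21 hd)
    have hc2 := hc
    simp only [hC2, mem_filter] at hc2
    obtain ⟨b, hb, _⟩ := two_of_two_le hc2.2
    simp only [mem_filter] at hb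
    have hd2 := hd
    simp only [hC2, mem_filter] at hd2
    obtain ⟨e1, he1, e2, he2, hne12⟩ := two_of_two_le hd2.2
    simp only [mem_filter] at he1 he2
    have hd3 := C21 hd
    simp only [hC1, mem_filter] at hd3
    obtain ⟨f, hf, _⟩ := two_of_two_le hd3.2
    simp only [mem_filter] at hf
    have k1 := K1 c hcD d hdD hdc hlt b hb.1 hb.2.1 hb.2.2
    have k2 := K1 d hdD f hf.1 hf.2.1 hf.2.2 e1 he1.1 he1.2.1 he1.2.2
    have k3 := K1 d hdD f hf.1 hf.2.1 hf.2.2 e2 he2.1 he2.2.1 he2.2.2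
    have w1 := wX c hcD d hdD hdc.symm
    have w2 := wX d hdD f hf.1 hf.2.1.symm
    have g1 := F1 b (C1D hb.1) c hcD d hdD e1 (C1D he1.1) hb.2.1 hdc.symm he1.2.1.symm
      he1.2.2 k1 hb.2.2 (by omega)
    have g2 := F1 b (C1D hb.1) c hcD d hdD e2 (C1D he2.1) hb.2.1 hdc.symm he2.2.1.symm
      he2.2.2 k1 hb.2.2 (by omega)
    exact hne12 (Prod.ext (g1.symm.trans g2) (he1.2.1.trans he2.2.1.symm))
  have n3 : #C2 ≤ 1 * Fintype.card V := by
    have := few_pred C2 t Prod.fst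
      (fun p hp q hq _ h => inj p (C1D (C21 hp)) q (C1D (C21 hq)) h) 1
    rwa [Finset.filter_true_of_mem K3] at this
  have hcover : D ⊆ {c ∈ D | #{e ∈ D | e.1 = c.1 ∧ t e < t c} < 2} ∪
      ({c ∈ C1 | #{e ∈ C1 | e.2 = c.2 ∧ t e < t c} < 2} ∪ C2) := by
    intro d hd
    simp only [mem_union]
    by_cases h1 : #{e ∈ D | e.1 = d.1 ∧ t e < t d} < 2
    · left; simp only [mem_filter]; exact ⟨hd, h1⟩
    · right
      have hd3 : d ∈ C1 := by simp only [hC1, mem_filter]; exact ⟨hd, by omega⟩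
      by_cases h2 : #{e ∈ C1 | e.2 = d.2 ∧ t e < t d} < 2
      · left; simp only [mem_filter]; exact ⟨hd3, h2⟩
      · right; simp only [hC2, mem_filter]; exact ⟨hd3, by omega⟩
  have := Finset.card_le_card hcover
  have u1 := Finset.card_union_le {c ∈ D | #{e ∈ D | e.1 = c.1 ∧ t e < t c} < 2}
    ({c ∈ C1 | #{e ∈ C1 | e.2 = c.2 ∧ t e < t c} < 2} ∪ C2)
  have u2 := Finset.card_union_le {c ∈ C1 | #{e ∈ C1 | e.2 = c.2 ∧ t e < t c} < 2} C2
  omega

/-- `21453`, both ends high. -/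
lemma abs21453HH (D : Finset (V × V)) (t : V × V → ℕ)
    (inj : ∀ p ∈ D, ∀ q ∈ D, t p = t q → p = q)
    (F1 : ∀ c ∈ D, ∀ d ∈ D, ∀ e ∈ D, c.2 = d.2 → d.1 = e.1 → t e < t c → ¬ t c < t d)
    (F2 : ∀ c ∈ D, ∀ d ∈ D, ∀ e ∈ D, c.1 = d.1 → d.2 = e.2 → t e < t c → ¬ t c < t d) :
    #D ≤ 2 * Fintype.card V := by
  classical
  have n1 : #{c ∈ D | #{e ∈ D | e.1 = c.1 ∧ t e < t c} < 1} ≤ 1 * Fintype.card V :=
    few_pred D t Prod.fst (fun p hp q hq _ h => inj p hp q hq h) 1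
  have n2 : #{c ∈ D | #{e ∈ D | e.2 = c.2 ∧ t e < t c} < 1} ≤ 1 * Fintype.card V :=
    few_pred D t Prod.snd (fun p hp q hq _ h => inj p hp q hq h) 1
  have hcover : D ⊆ {c ∈ D | #{e ∈ D | e.1 = c.1 ∧ t e < t c} < 1} ∪
      {c ∈ D | #{e ∈ D | e.2 = c.2 ∧ t e < t c} < 1} := by
    intro d hd
    simp only [mem_union]
    by_contra hcon
    push Not at hcon
    simp only [mem_filter, not_and, not_lt] at hcon
    obtain ⟨e, he⟩ := Finset.card_pos.1 (show 0 < #{e ∈ D | e.1 = d.1 ∧ t e < t d} from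
      hcon.1 hd)
    obtain ⟨c, hc⟩ := Finset.card_pos.1 (show 0 < #{e ∈ D | e.2 = d.2 ∧ t e < t d} from
      hcon.2 hd)
    simp only [mem_filter] at he hc
    rcases lt_trichotomy (t e) (t c) with h | h | h
    · exact F1 c hc.1 d hd e he.1 hc.2.1 he.2.1.symm h hc.2.2
    · have h1 := inj e he.1 c hc.1 h
      have h2 : e = d := Prod.ext he.2.1 (by rw [h1]; exact hc.2.1)
      rw [h2] at he
      omega
    · exact F2 e he.1 d hd c hc.1 he.2.1 hc.2.1.symm h he.2.2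
  have := Finset.card_le_card hcover
  have u1 := Finset.card_union_le {c ∈ D | #{e ∈ D | e.1 = c.1 ∧ t e < t c} < 1}
    {c ∈ D | #{e ∈ D | e.2 = c.2 ∧ t e < t c} < 1}
  omega

end Pool.Agent.W5h10.EO
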