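import Pool.Agent.W5h10.EO.Abs1

set_option autoImplicit false
set_option linter.unusedSectionVars false

open Finset

namespace Pool.Agent.W5h10.EO

variable {V : Type*} [Fintype V] [DecidableEq V]

lemma card_le_card_key2 {α K : Type*} [Fintype K] [DecidableEq K] (A : Finset α) (κ : α → K)
    (k : α → ℕ) (M : ℕ) (hk : ∀ a ∈ A, k a < M)
    (h : ∀ a ∈ A, ∀ b ∈ A, κ a = κ b → k a = k b → a = b) :
    #A ≤ M * Fintype.card K := by
  classical
  have : #A ≤ #((univ : Finset K) ×ˢ range M) := by
    apply Finset.card_le_card_of_injOn (fun a => (κ a, k a))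
    · intro a ha
      simp [hk a (Finset.mem_coe.1 ha)]
    · intro a ha b hb hab
      simp only [Prod.mk.injEq] at hab
      exact h a (Finset.mem_coe.1 ha) b (Finset.mem_coe.1 hb) hab.1 hab.2
  rw [Finset.card_product, Finset.card_range, Finset.card_univ, mul_comm] at this
  exact this

/-- `21453`, first end low, second end high, after thinning. -/
lemma abs21453LH [Nonempty V] (D : Finset (V × V)) (t : V × V → ℕ) (f : V → ℕ) (L : ℕ)
    (inj : ∀ p ∈ D, ∀ q ∈ D, t p = t q → p = q)
    (hf : ∀ p ∈ D, t p ≤ f p.1) (hfL : ∀ p ∈ D, f p.1 < 2 ^ L)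
    (G : ∀ b ∈ D, ∀ b' ∈ D, b.2 = b'.2 → t b < t b' → f b.1 < t b')
    (F2 : ∀ c ∈ D, ∀ d ∈ D, ∀ e ∈ D, c.1 = d.1 → d.2 = e.2 → t e < t c → ¬ t c < t d) :
    #D ≤ (2 * L + 3) * Fintype.card V := by
  classical
  obtain ⟨fst, hfst⟩ := exists_firstfun D t Prod.snd
  -- the supremum of `f` over earlier elements at the same second vertex
  let sp : V × V → ℕ := fun d => ({e ∈ D | e.2 = d.2 ∧ t e < t d} : Finset (V × V)).sup
    (fun e => f e.1)
  let u : V × V → ℕ := fun d => sp d + 1 - t (fst d.2)
  have hsp1 : ∀ d ∈ D, ∀ e ∈ D, e.2 = d.2 → t e < t d → f e.1 ≤ sp d := by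
    intro d _ e he h1 h2
    exact Finset.le_sup (f := fun e : V × V => f e.1) (by simp [he, h1, h2])
  have hsp2 : ∀ d ∈ D, 0 < t d → sp d < t d := by
    intro d hd h0
    simp only [sp]
    rw [Finset.sup_lt_iff (by simpa using h0)]
    intro e he
    simp only [mem_filter] at he
    exact G e he.1 d hd he.2.1 he.2.2
  set N : Finset (V × V) := {d ∈ D | t (fst d.2) < t d} with hN
  set T1 : Finset (V × V) := {d ∈ N | ∀ d' ∈ D, d'.2 = d.2 → t d < t d' →
    Nat.log 2 (u d') ≠ Nat.log 2 (u d)} with hT1
  set T2 : Finset (V × V) := {d ∈ N | ∃ d' ∈ D, d'.2 = d.2 ∧ t d < t d' ∧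
    Nat.log 2 (u d') = Nat.log 2 (u d)} with hT2
  have ND : N ⊆ D := Finset.filter_subset _ _
  -- `u` facts
  have hu1 : ∀ d ∈ N, 1 ≤ u d := by
    intro d hd
    simp only [hN, mem_filter] at hd
    have h1 := hfst d hd.1
    have h2 := hsp1 d hd.1 (fst d.2) h1.1 h1.2.1 hd.2
    have h3 := hf _ h1.1
    simp only [u]
    omega
  have hu2 : ∀ d ∈ N, u d + t (fst d.2) ≤ t d := by
    intro d hd
    have hd' := hd
    simp only [hN, mem_filter] at hd
    have h1 := hsp2 d hd.1 (by omega)
    have h2 := hu1 d hd'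
    simp only [u] at h2 ⊢
    omega
  have hlog : ∀ d ∈ N, Nat.log 2 (u d) < L + 1 := by
    intro d hd
    have h1 := hu2 d hd
    have h2 := hu1 d hd
    have h3 := hf d (ND hd)
    have h4 := hfL d (ND hd)
    apply Nat.log_lt_of_lt_pow (by omega)
    rw [pow_succ]
    omega
  have nN : #{d ∈ D | ¬ t (fst d.2) < t d} ≤ Fintype.card V := by
    apply card_le_card_key _ Prod.snd
    intro a ha b hb hab
    simp only [mem_filter] at ha hb
    have ha1 := hfst a ha.1
    have hb1 := hfst b hb.1
    have e1 : fst a.2 = a := inj _ ha1.1 a ha.1 (by omega)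
    have e2 : fst b.2 = b := inj _ hb1.1 b hb.1 (by omega)
    rw [← e1, ← e2, hab]
  have nT1 : #T1 ≤ (L + 1) * Fintype.card V := by
    apply card_le_card_key2 T1 Prod.snd (fun d => Nat.log 2 (u d)) (L + 1)
    · intro a ha
      simp only [hT1, mem_filter] at ha
      exact hlog a ha.1
    · intro a ha b hb hab hk
      simp only [hT1, mem_filter] at ha hb
      rcases lt_trichotomy (t a) (t b) with h | h | h
      · exact absurd hk.symm (ha.2 b (ND hb.1) hab.symm h)
      · exact inj a (ND ha.1) b (ND hb.1) h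
      · exact absurd hk (hb.2 a (ND ha.1) hab h)
  have nT2 : #T2 ≤ (L + 1) * Fintype.card V := by
    apply card_le_card_key2 T2 Prod.fst (fun d => Nat.log 2 (u d)) (L + 1)
    · intro a ha
      simp only [hT2, mem_filter] at ha
      exact hlog a ha.1
    · have main : ∀ a ∈ T2, ∀ b ∈ T2, a.1 = b.1 → Nat.log 2 (u a) = Nat.log 2 (u b) →
          ¬ t a < t b := by
        intro a ha b hb hab hk hlt
        simp only [hT2, mem_filter] at ha hb
        obtain ⟨haN, d', hd', hd2, hlt', hlog'⟩ := ha
        obtain ⟨hbN, _⟩ := hb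
        have haD := ND haN
        have hbD := ND hbN
        have ha1 := hu1 a haN
        have hb1 := hu1 b hbN
        have ha2 := hu2 a haN
        have hb2 := hu2 b hbN
        set k := Nat.log 2 (u a) with hkdef
        have p1 : 2 ^ k ≤ u a := Nat.pow_log_le_self 2 (by omega)
        have p2 : 2 ^ k ≤ u b := by rw [hk]; exact Nat.pow_log_le_self 2 (by omega)
        have p3 : u d' < 2 ^ (k + 1) := by
          rw [← hlog']; exact Nat.lt_pow_succ_log_self (by norm_num) _
        have p4 := hsp1 d' hd' a haD hd2.symm hlt'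
        have p5 : f a.1 + 1 - t (fst a.2) ≤ u d' := by
          simp only [u]
          rw [hd2]
          omega
        have p6 := hf b hbD
        rw [← hab] at p6
        have hbN' := hbN
        simp only [hN, mem_filter] at hbN'
        have hfb := hfst b hbD
        have p7 : t a < t (fst b.2) := by
          by_contra hcon
          rcases Nat.lt_or_ge (t (fst b.2)) (t a) with h | h
          · exact F2 a haD b hbD (fst b.2) hfb.1 hab hfb.2.1.symm h hlt
          · have h1 : fst b.2 = a := inj _ hfb.1 a haD (by omega)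
            have h2 : a = b := Prod.ext hab (by rw [← h1]; exact hfb.2.1)
            rw [h2] at hlt
            omega
        rw [pow_succ] at p3
        omega
      intro a ha b hb hab hk
      have haD : a ∈ D := ND (Finset.filter_subset _ _ ha)
      have hbD : b ∈ D := ND (Finset.filter_subset _ _ hb)
      rcases lt_trichotomy (t a) (t b) with h | h | h
      · exact absurd h (main a ha b hb hab hk)
      · exact inj a haD b hbD h
      · exact absurd h (main b hb a ha hab.symm hk.symm)
  have hcover : D ⊆ {d ∈ D | ¬ t (fst d.2) < t d} ∪ (T1 ∪ T2) := by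
    intro d hd
    simp only [mem_union]
    by_cases h1 : t (fst d.2) < t d
    · right
      have hdN : d ∈ N := by simp only [hN, mem_filter]; exact ⟨hd, h1⟩
      by_cases h2 : ∃ d' ∈ D, d'.2 = d.2 ∧ t d < t d' ∧ Nat.log 2 (u d') = Nat.log 2 (u d)
      · right; simp only [hT2, mem_filter]; exact ⟨hdN, h2⟩
      · left; simp only [hT1, mem_filter]
        refine ⟨hdN, ?_⟩
        intro d' h3 h4 h5 h6
        exact h2 ⟨d', h3, h4, h5, h6⟩
    · left; simp only [mem_filter]; exact ⟨hd, h1⟩
  have := Finset.card_le_card hcover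
  have u1 := Finset.card_union_le {d ∈ D | ¬ t (fst d.2) < t d} (T1 ∪ T2)
  have u2 := Finset.card_union_le T1 T2
  have h3 : (2 * L + 3) * Fintype.card V =
    Fintype.card V + ((L + 1) * Fintype.card V + (L + 1) * Fintype.card V) := by ring
  omega

end Pool.Agent.W5h10.EO
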