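import Pool.Agent.W5h10.EO.Abs2

set_option autoImplicit false
set_option linter.unusedSectionVars false

open Finset

namespace Pool.Agent.W5h10.EO

variable {V : Type*} [Fintype V] [DecidableEq V] {α : Type*}

lemma predfun_inj (D : Finset α) (t : α → ℕ) (κ : α → V) (inj : ∀ p ∈ D, ∀ q ∈ D, t p = t q → p = q)
    (p : α → α) (hp : ∀ c ∈ D, (∃ e ∈ D, κ e = κ c ∧ t e < t c) →
      p c ∈ D ∧ κ (p c) = κ c ∧ t (p c) < t c ∧ ∀ e ∈ D, κ e = κ c → t e < t c → t e ≤ t (p c))
    (c : α) (hc : c ∈ D) (h1 : ∃ e ∈ D, κ e = κ c ∧ t e < t c)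
    (c' : α) (hc' : c' ∈ D) (h2 : ∃ e ∈ D, κ e = κ c' ∧ t e < t c') (h : p c = p c') : c = c' := by
  obtain ⟨a1, a2, a3, a4⟩ := hp c hc h1
  obtain ⟨b1, b2, b3, b4⟩ := hp c' hc' h2
  rw [h] at a2 a3 a4
  rcases lt_trichotomy (t c) (t c') with h' | h' | h'
  · have := b4 c hc (a2.symm.trans b2) h'
    omega
  · exact inj c hc c' hc' h'
  · have := a4 c' hc' (b2.symm.trans a2) h'
    omega

lemma succfun_inj (D : Finset α) (t : α → ℕ) (κ : α → V) (inj : ∀ p ∈ D, ∀ q ∈ D, t p = t q → p = q)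
    (p : α → α) (hp : ∀ c ∈ D, (∃ e ∈ D, κ e = κ c ∧ t c < t e) →
      p c ∈ D ∧ κ (p c) = κ c ∧ t c < t (p c) ∧ ∀ e ∈ D, κ e = κ c → t c < t e → t (p c) ≤ t e)
    (c : α) (hc : c ∈ D) (h1 : ∃ e ∈ D, κ e = κ c ∧ t c < t e)
    (c' : α) (hc' : c' ∈ D) (h2 : ∃ e ∈ D, κ e = κ c' ∧ t c' < t e) (h : p c = p c') : c = c' := by
  obtain ⟨a1, a2, a3, a4⟩ := hp c hc h1
  obtain ⟨b1, b2, b3, b4⟩ := hp c' hc' h2
  rw [h] at a2 a3 a4
  rcases lt_trichotomy (t c) (t c') with h' | h' | h'
  · have := a4 c' hc' (b2.symm.trans a2) h'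
    omega
  · exact inj c hc c' hc' h'
  · have := b4 c hc (a2.symm.trans b2) h'
    omega

/-- Full lock: bound on the edges whose first-side predecessor is smaller. -/
lemma lockA [Nonempty α] (D : Finset α) (t : α → ℕ) (x y : α → V) (L : ℕ)
    (inj : ∀ p ∈ D, ∀ q ∈ D, t p = t q → p = q)
    (hxy : ∀ p ∈ D, ∀ q ∈ D, x p = x q → y p = y q → p = q)
    (hL : ∀ p ∈ D, t p < 2 ^ L)
    (p q : α → α)
    (hp : ∀ c ∈ D, (∃ e ∈ D, x e = x c ∧ t e < t c) →
      p c ∈ D ∧ x (p c) = x c ∧ t (p c) < t c ∧ ∀ e ∈ D, x e = x c → t e < t c → t e ≤ t (p c))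
    (hq : ∀ c ∈ D, (∃ e ∈ D, y e = y c ∧ t e < t c) →
      q c ∈ D ∧ y (q c) = y c ∧ t (q c) < t c ∧ ∀ e ∈ D, y e = y c → t e < t c → t e ≤ t (q c))
    (FLx : ∀ c ∈ D, ∀ b ∈ D, x b = x c → t b < t c → ∀ d ∈ D, y d = y c → t d < t b →
      ∀ e ∈ D, x e = x d → t d < t e → ¬ t e < t b)
    (FLy : ∀ c ∈ D, ∀ b ∈ D, y b = y c → t b < t c → ∀ d ∈ D, x d = x c → t d < t b →
      ∀ e ∈ D, y e = y d → t d < t e → ¬ t e < t b) :
    #{c ∈ D | (∃ e ∈ D, x e = x c ∧ t e < t c) ∧ (∃ e ∈ D, y e = y c ∧ t e < t c) ∧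
      t (p c) < t (q c)} ≤ (9 * L + 3) * Fintype.card V := by
  classical
  set A : Finset α := {c ∈ D | (∃ e ∈ D, x e = x c ∧ t e < t c) ∧
    (∃ e ∈ D, y e = y c ∧ t e < t c) ∧ t (p c) < t (q c)} with hA
  set B : Finset α := {c ∈ D | (∃ e ∈ D, x e = x c ∧ t e < t c) ∧
    (∃ e ∈ D, y e = y c ∧ t e < t c) ∧ t (q c) < t (p c)} with hB
  have AD : A ⊆ D := Finset.filter_subset _ _
  have BD : B ⊆ D := Finset.filter_subset _ _
  have LA : ∀ c ∈ A, ∀ d ∈ D, x d = x c → t d < t c → t d < t (q c) ∧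
      ∀ e ∈ D, y e = y d → t d < t e → ¬ t e < t (q c) := by
    intro c hc d hd hdc hlt
    simp only [hA, mem_filter] at hc
    obtain ⟨hcD, hcx, hcy, hpq⟩ := hc
    obtain ⟨p1, p2, p3, p4⟩ := hp c hcD hcx
    obtain ⟨q1, q2, q3, q4⟩ := hq c hcD hcy
    have h1 := p4 d hd hdc hlt
    refine ⟨by omega, ?_⟩
    intro e he hed hlt'
    exact FLy c hcD (q c) q1 q2 q3 d hd hdc (by omega) e he hed hlt'
  have LB : ∀ c ∈ B, ∀ d ∈ D, y d = y c → t d < t c → t d < t (p c) ∧
      ∀ e ∈ D, x e = x d → t d < t e → ¬ t e < t (p c) := by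
    intro c hc d hd hdc hlt
    simp only [hB, mem_filter] at hc
    obtain ⟨hcD, hcx, hcy, hpq⟩ := hc
    obtain ⟨p1, p2, p3, p4⟩ := hp c hcD hcx
    obtain ⟨q1, q2, q3, q4⟩ := hq c hcD hcy
    have h1 := q4 d hd hdc hlt
    refine ⟨by omega, ?_⟩
    intro e he hed hlt'
    exact FLx c hcD (p c) p1 p2 p3 d hd hdc (by omega) e he hed hlt'
  have Claim1 : ∀ d ∈ D, ∀ a ∈ A, x a = x d → t d < t a → ∀ b ∈ B, y b = y d → t d < t b →
      d = p a ∨ d = q b := by
    intro d hd a ha had hda b hb hbd hdb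
    by_contra hcon
    push Not at hcon
    have la := LA a ha d hd had.symm hda
    have lb := LB b hb d hd hbd.symm hdb
    simp only [hA, mem_filter] at ha
    simp only [hB, mem_filter] at hb
    obtain ⟨haD, hax, hay, hapq⟩ := ha
    obtain ⟨hbD, hbx, hby, hbpq⟩ := hb
    obtain ⟨p1, p2, p3, p4⟩ := hp a haD hax
    obtain ⟨q1, q2, q3, q4⟩ := hq b hbD hby
    have h1 := p4 d hd had.symm hda
    have h2 := q4 d hd hbd.symm hdb
    have h3 : t d ≠ t (p a) := fun h => hcon.1 (inj d hd _ p1 h)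
    have h4 : t d ≠ t (q b) := fun h => hcon.2 (inj d hd _ q1 h)
    have h5 := la.2 (q b) q1 (q2.trans hbd) (by omega)
    have h6 := lb.2 (p a) p1 (p2.trans had) (by omega)
    omega
  obtain ⟨lA, hlA⟩ := exists_lastfun A t x
  obtain ⟨lB, hlB⟩ := exists_lastfun B t y
  obtain ⟨ρ, hρ⟩ := exists_succfun D t y
  obtain ⟨σ, hσ⟩ := exists_succfun D t x
  set DA : Finset α := {d ∈ A | t d < t (lA (x d)) ∧ ∀ e ∈ B, y e = y d → t e < t d} with hDA
  have DAA : DA ⊆ A := Finset.filter_subset _ _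
  set n := Fintype.card V with hn
  -- exceptional sets
  set N1 : Finset α := {s ∈ D | #{e ∈ D | x e = x s ∧ t e < t s} < 1} with hN1
  set N3 : Finset α := {s ∈ D | #{e ∈ D | y e = y s ∧ t e < t s} < 1} with hN3
  set N7 : Finset α := {s ∈ D | #{e ∈ D | y e = y s ∧ t s < t e} < 1} with hN7
  set N2 : Finset α := {s ∈ A | s = lA (x s)} with hN2
  set N4 : Finset α := {s ∈ B | s = lB (y s)} with hN4
  set N5 : Finset α := {s ∈ D | s = q (lB (y s))} with hN5
  set N6 : Finset α := {s ∈ D | s = p (lA (x s))} with hN6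
  have c1 : #N1 ≤ 1 * n := few_pred D t x (fun a ha b hb _ h => inj a ha b hb h) 1
  have c3 : #N3 ≤ 1 * n := few_pred D t y (fun a ha b hb _ h => inj a ha b hb h) 1
  have c7 : #N7 ≤ 1 * n := few_succ D t y (fun a ha b hb _ h => inj a ha b hb h) 1
  have c2 : #N2 ≤ n := by
    apply card_le_card_key _ x
    intro a ha b hb hab
    simp only [hN2, mem_filter] at ha hb
    rw [ha.2, hb.2, hab]
  have c4 : #N4 ≤ n := by
    apply card_le_card_key _ y
    intro a ha b hb hab
    simp only [hN4, mem_filter] at ha hb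
    rw [ha.2, hb.2, hab]
  have c5 : #N5 ≤ n := by
    apply card_le_card_key _ y
    intro a ha b hb hab
    simp only [hN5, mem_filter] at ha hb
    rw [ha.2, hb.2, hab]
  have c6 : #N6 ≤ n := by
    apply card_le_card_key _ x
    intro a ha b hb hab
    simp only [hN6, mem_filter] at ha hb
    rw [ha.2, hb.2, hab]
  have memN1 : ∀ s ∈ D, s ∉ N1 → ∃ e ∈ D, x e = x s ∧ t e < t s := by
    intro s hs hsn
    simp only [hN1, mem_filter, not_and, not_lt] at hsn
    obtain ⟨e, he⟩ := Finset.card_pos.1 (hsn hs)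
    simp only [mem_filter] at he
    exact ⟨e, he.1, he.2⟩
  have memN3 : ∀ s ∈ D, s ∉ N3 → ∃ e ∈ D, y e = y s ∧ t e < t s := by
    intro s hs hsn
    simp only [hN3, mem_filter, not_and, not_lt] at hsn
    obtain ⟨e, he⟩ := Finset.card_pos.1 (hsn hs)
    simp only [mem_filter] at he
    exact ⟨e, he.1, he.2⟩
  have memN7 : ∀ s ∈ D, s ∉ N7 → ∃ e ∈ D, y e = y s ∧ t s < t e := by
    intro s hs hsn
    simp only [hN7, mem_filter, not_and, not_lt] at hsn
    obtain ⟨e, he⟩ := Finset.card_pos.1 (hsn hs)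
    simp only [mem_filter] at he
    exact ⟨e, he.1, he.2⟩
  -- every element with both predecessors is in A or in B
  have hAB : ∀ s ∈ D, s ∉ N1 → s ∉ N3 → s ∈ A ∨ s ∈ B := by
    intro s hs h1 h3
    have hx := memN1 s hs h1
    have hy := memN3 s hs h3
    obtain ⟨p1, p2, p3, p4⟩ := hp s hs hx
    obtain ⟨q1, q2, q3, q4⟩ := hq s hs hy
    rcases lt_trichotomy (t (p s)) (t (q s)) with h | h | h
    · left; simp only [hA, mem_filter]; exact ⟨hs, hx, hy, h⟩
    · exfalso
      have e1 : p s = q s := inj _ p1 _ q1 h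
      have e2 : p s = s := hxy _ p1 _ hs p2 (by rw [e1]; exact q2)
      rw [e2] at p3
      omega
    · right; simp only [hB, mem_filter]; exact ⟨hs, hx, hy, h⟩
  -- facts about elements below the last A-edge
  have cover1 : A ⊆ DA ∪ (N2 ∪ (N5 ∪ N6)) := by
    intro d hd
    simp only [mem_union]
    by_contra hcon
    push Not at hcon
    obtain ⟨h1, h2, h5, h6⟩ := hcon
    have hdD := AD hd
    have hla := hlA d hd
    have hlt : t d < t (lA (x d)) := by
      rcases Nat.lt_or_ge (t d) (t (lA (x d))) with h | h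
      · exact h
      · exfalso
        have : d = lA (x d) := inj _ hdD _ (AD hla.1) (by omega)
        exact h2 (by simp only [hN2, mem_filter]; exact ⟨hd, this⟩)
    have : ¬ ∀ e ∈ B, y e = y d → t e < t d := by
      intro h
      exact h1 (by simp only [hDA, mem_filter]; exact ⟨hd, hlt, h⟩)
    push Not at this
    obtain ⟨e, heB, hed, hle⟩ := this
    have hlb := hlB e heB
    rw [hed] at hlb
    have hne : t d < t (lB (y d)) := by
      rcases Nat.lt_or_ge (t d) (t (lB (y d))) with h | h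
      · exact h
      · exfalso
        have h7 : d = e := inj _ hdD _ (BD heB) (by omega)
        rw [h7] at hd
        simp only [hA, mem_filter] at hd
        simp only [hB, mem_filter] at heB
        omega
    rcases Claim1 d hdD _ hla.1 hla.2.1 hlt _ hlb.1 hlb.2.1 hne with h | h
    · exact h6 (by simp only [hN6, mem_filter]; exact ⟨hdD, h⟩)
    · exact h5 (by simp only [hN5, mem_filter]; exact ⟨hdD, h⟩)
  set Gd : Finset α := {d ∈ DA | (∃ e ∈ D, y e = y d ∧ t d < t e) ∧ ρ d ∈ DA ∧ p (ρ d) ∈ DA}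
    with hGd
  set M1 : Finset α := {d ∈ DA | (∃ e ∈ D, y e = y d ∧ t d < t e) ∧ ρ d ∉ DA} with hM1
  set M2 : Finset α := {d ∈ DA | (∃ e ∈ D, y e = y d ∧ t d < t e) ∧ ρ d ∈ DA ∧ p (ρ d) ∉ DA}
    with hM2
  have cM1 : #M1 ≤ #(N1 ∪ N2) := by
    apply Finset.card_le_card_of_injOn ρ
    · intro d hd
      rw [Finset.mem_coe] at hd
      simp only [hM1, mem_filter] at hd
      obtain ⟨hd1, hd2, hd3⟩ := hd
      have hdA := DAA hd1
      have hdD := AD hdA
      obtain ⟨s1, s2, s3, s4⟩ := hρ d hdD hd2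
      rw [Finset.mem_coe]
      by_contra hcon
      simp only [mem_union, not_or] at hcon
      have hN3' : ρ d ∉ N3 := by
        intro h
        simp only [hN3, mem_filter] at h
        have : 0 < #{e ∈ D | y e = y (ρ d) ∧ t e < t (ρ d)} :=
          Finset.card_pos.2 ⟨d, by simp only [mem_filter]; exact ⟨hdD, s2.symm, s3⟩⟩
        omega
      simp only [hDA, mem_filter] at hd1
      rcases hAB _ s1 hcon.1 hN3' with h | h
      · -- in A
        have hla := hlA _ h
        apply hd3
        simp only [hDA, mem_filter]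
        refine ⟨h, ?_, ?_⟩
        · rcases Nat.lt_or_ge (t (ρ d)) (t (lA (x (ρ d)))) with h' | h'
          · exact h'
          · exfalso
            have : ρ d = lA (x (ρ d)) := inj _ s1 _ (AD hla.1) (by omega)
            exact hcon.2 (by simp only [hN2, mem_filter]; exact ⟨h, this⟩)
        · intro e he hey
          have := hd1.2.2 e he (hey.trans s2)
          omega
      · have := hd1.2.2 _ h s2
        omega
    · intro a ha b hb hab
      rw [Finset.mem_coe] at ha hb
      simp only [hM1, mem_filter] at ha hb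
      exact succfun_inj D t y inj ρ hρ a (AD (DAA ha.1)) ha.2.1 b (AD (DAA hb.1)) hb.2.1 hab
  have cM2 : #M2 ≤ #(N1 ∪ (N3 ∪ (N4 ∪ N5))) := by
    apply Finset.card_le_card_of_injOn (fun d => p (ρ d))
    · intro d hd
      rw [Finset.mem_coe] at hd
      simp only [hM2, mem_filter] at hd
      obtain ⟨hd1, hd2, hd3, hd4⟩ := hd
      have hcA := DAA hd3
      have hcD := AD hcA
      have hcA' := hcA
      simp only [hA, mem_filter] at hcA'
      obtain ⟨p1, p2, p3, p4⟩ := hp (ρ d) hcD hcA'.2.1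
      have hc3 := hd3
      simp only [hDA, mem_filter] at hc3
      have hla := hlA _ hcA
      rw [Finset.mem_coe]
      by_contra hcon
      simp only [mem_union, not_or] at hcon
      obtain ⟨m1, m3, m4, m5⟩ := hcon
      have hltA : t (p (ρ d)) < t (lA (x (p (ρ d)))) := by
        rw [p2]; omega
      -- it cannot be p of the last A-edge
      have hnp : p (ρ d) ≠ p (lA (x (p (ρ d)))) := by
        intro h
        rw [p2] at h
        have h1 := hla.1
        simp only [hA, mem_filter] at h1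
        have := predfun_inj D t x inj p hp (ρ d) hcD hcA'.2.1 _ h1.1 h1.2.1 h
        rw [← this] at hc3
        omega
      have key : ∀ e ∈ B, y e = y (p (ρ d)) → t (p (ρ d)) < t e → False := by
        intro e he hey hlt
        have hlb := hlB e he
        rw [hey] at hlb
        rcases Claim1 (p (ρ d)) p1 (lA (x (p (ρ d)))) (by rw [p2]; exact hla.1)
          (by rw [p2]; exact hla.2.1) hltA _ hlb.1 hlb.2.1 (by omega) with h | h
        · exact hnp h
        · exact m5 (by simp only [hN5, mem_filter]; exact ⟨p1, h⟩)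
      rcases hAB _ p1 m1 m3 with h | h
      · apply hd4
        simp only [hDA, mem_filter]
        refine ⟨h, hltA, ?_⟩
        intro e he hey
        by_contra hle
        rcases Nat.lt_or_ge (t (p (ρ d))) (t e) with h' | h'
        · exact key e he hey h'
        · have h7 : p (ρ d) = e := inj _ p1 _ (BD he) (by omega)
          rw [h7] at h
          simp only [hA, mem_filter] at h
          simp only [hB, mem_filter] at he
          omega
      · have hlb := hlB _ h
        rcases Nat.lt_or_ge (t (p (ρ d))) (t (lB (y (p (ρ d))))) with h' | h'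
        · exact key _ hlb.1 hlb.2.1 h'
        · have : p (ρ d) = lB (y (p (ρ d))) := inj _ p1 _ (BD hlb.1) (by omega)
          exact m4 (by simp only [hN4, mem_filter]; exact ⟨h, this⟩)
    · intro a ha b hb hab
      rw [Finset.mem_coe] at ha hb
      simp only [hM2, mem_filter] at ha hb
      have ha3 := DAA ha.2.2.1
      have hb3 := DAA hb.2.2.1
      have ha4 := ha3
      have hb4 := hb3
      simp only [hA, mem_filter] at ha4 hb4
      have h1 : ρ a = ρ b := predfun_inj D t x inj p hp _ (AD ha3) ha4.2.1 _ (AD hb3) hb4.2.1 hab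
      exact succfun_inj D t y inj ρ hρ a (AD (DAA ha.1)) ha.2.1 b (AD (DAA hb.1)) hb.2.1 h1
  have cbad : #(DA \ Gd) ≤ 7 * n := by
    have hsub : DA \ Gd ⊆ N7 ∪ (M1 ∪ M2) := by
      intro d hd
      simp only [mem_sdiff] at hd
      obtain ⟨hd1, hd2⟩ := hd
      simp only [mem_union]
      by_cases h7 : d ∈ N7
      · exact Or.inl h7
      · right
        have hs := memN7 d (AD (DAA hd1)) h7
        by_cases h1 : ρ d ∈ DA
        · right
          simp only [hM2, mem_filter]
          refine ⟨hd1, hs, h1, ?_⟩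
          intro h2
          exact hd2 (by simp only [hGd, mem_filter]; exact ⟨hd1, hs, h1, h2⟩)
        · left
          simp only [hM1, mem_filter]
          exact ⟨hd1, hs, h1⟩
    have h0 := Finset.card_le_card hsub
    have u1 := Finset.card_union_le N7 (M1 ∪ M2)
    have u2 := Finset.card_union_le M1 M2
    have u3 := Finset.card_union_le N1 N2
    have u4 := Finset.card_union_le N1 (N3 ∪ (N4 ∪ N5))
    have u5 := Finset.card_union_le N3 (N4 ∪ N5)
    have u6 := Finset.card_union_le N4 N5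
    omega
  -- the two quantities
  let R : α → ℕ := fun d => t (q (lA (x d))) - t d
  let g : α → ℕ := fun d => t (σ d) - t d
  have fDA : ∀ d ∈ DA, d ∈ D ∧ lA (x d) ∈ A ∧ x (lA (x d)) = x d ∧ t d < t (lA (x d)) ∧
      t d < t (q (lA (x d))) ∧ σ d ∈ D ∧ x (σ d) = x d ∧ t d < t (σ d) ∧
      t (σ d) ≤ t (lA (x d)) ∧ q (lA (x d)) ∈ D := by
    intro d hd
    have hdA := DAA hd
    have hdD := AD hdA
    have hla := hlA d hdA
    simp only [hDA, mem_filter] at hd
    have la := LA _ hla.1 d hdD hla.2.1.symm hd.2.1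
    obtain ⟨s1, s2, s3, s4⟩ := hσ d hdD ⟨_, AD hla.1, hla.2.1, hd.2.1⟩
    have h1 := s4 _ (AD hla.1) hla.2.1 hd.2.1
    have h2 := hla.1
    simp only [hA, mem_filter] at h2
    obtain ⟨q1, _⟩ := hq _ h2.1 h2.2.2.1
    exact ⟨hdD, hla.1, hla.2.1, hd.2.1, la.1, s1, s2, s3, h1, q1⟩
  -- g ≤ R except for N6
  have hgR : ∀ d ∈ DA, R d < g d → d ∈ N6 := by
    intro d hd hlt
    obtain ⟨hdD, h1, h2, h3, h4, h5, h6, h7, h8, h9⟩ := fDA d hd
    have h1' := h1
    simp only [hA, mem_filter] at h1'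
    obtain ⟨p1, p2, p3, p4⟩ := hp _ h1'.1 h1'.2.1
    have hσa : σ d = lA (x d) := by
      by_contra hne
      have hlt' : t (σ d) < t (lA (x d)) := by
        rcases Nat.lt_or_ge (t (σ d)) (t (lA (x d))) with h | h
        · exact h
        · exact absurd (inj _ h5 _ h1'.1 (by omega)) hne
      have := (LA _ h1 (σ d) h5 (h6.trans h2.symm) hlt').1
      simp only [R, g] at hlt
      omega
    have hle := p4 d hdD h2.symm h3
    have heq : d = p (lA (x d)) := by
      rcases Nat.lt_or_ge (t d) (t (p (lA (x d)))) with h | h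
      · exfalso
        obtain ⟨s1, s2, s3, s4⟩ := hσ d hdD ⟨_, h1'.1, h2, h3⟩
        have := s4 _ p1 (p2.trans h2) h
        rw [hσa] at this
        omega
      · exact inj _ hdD _ p1 (by omega)
    simp only [hN6, mem_filter]
    exact ⟨hdD, heq⟩
  -- the threshold inequality
  have hthr : ∀ r : ℕ, #{d ∈ DA | g d < r ∧ r ≤ R d} ≤ 8 * n := by
    intro r
    have e1 : #{d ∈ DA | r ≤ R d} =
        #{d ∈ DA | g d < r ∧ r ≤ R d} + #{d ∈ DA | r ≤ g d ∧ r ≤ R d} := by
      rw [← Finset.card_union_of_disjoint]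
      · congr 1
        ext d
        simp only [mem_filter, mem_union]
        constructor
        · rintro ⟨h1, h2⟩
          rcases Nat.lt_or_ge (g d) r with h | h
          · exact Or.inl ⟨h1, h, h2⟩
          · exact Or.inr ⟨h1, h, h2⟩
        · rintro (⟨h1, h2, h3⟩ | ⟨h1, h2, h3⟩) <;> exact ⟨h1, h3⟩
      · rw [Finset.disjoint_left]
        intro d hd hd'
        simp only [mem_filter] at hd hd'
        omega
    have e2 : #{d ∈ DA | r ≤ g d} ≤ #{d ∈ DA | r ≤ g d ∧ r ≤ R d} + #N6 := by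
      have hsub : ({d ∈ DA | r ≤ g d} : Finset α) ⊆ {d ∈ DA | r ≤ g d ∧ r ≤ R d} ∪ N6 := by
        intro d hd
        simp only [mem_filter] at hd
        simp only [mem_union, mem_filter]
        rcases Nat.lt_or_ge (R d) r with h | h
        · exact Or.inr (hgR d hd.1 (by omega))
        · exact Or.inl ⟨hd.1, hd.2, h⟩
      exact (Finset.card_le_card hsub).trans (Finset.card_union_le _ _)
    have e3 : #{d ∈ DA | r ≤ R d} ≤ #(DA \ Gd) + #{d ∈ Gd | r ≤ R d} := by
      have hsub : ({d ∈ DA | r ≤ R d} : Finset α) ⊆ (DA \ Gd) ∪ {d ∈ Gd | r ≤ R d} := by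
        intro d hd
        simp only [mem_filter] at hd
        simp only [mem_union, mem_filter, mem_sdiff]
        by_cases h : d ∈ Gd
        · exact Or.inr ⟨h, hd.2⟩
        · exact Or.inl ⟨hd.1, h⟩
      exact (Finset.card_le_card hsub).trans (Finset.card_union_le _ _)
    have e4 : #{d ∈ Gd | r ≤ R d} ≤ #{d ∈ DA | r ≤ g d} := by
      apply Finset.card_le_card_of_injOn (fun d => p (ρ d))
      · intro d hd
        rw [Finset.mem_coe] at hd
        rw [Finset.mem_coe]
        simp only [mem_filter] at hd ⊢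
        obtain ⟨hdG, hr⟩ := hd
        simp only [hGd, mem_filter] at hdG
        obtain ⟨hd1, hd2, hd3, hd4⟩ := hdG
        refine ⟨hd4, ?_⟩
        obtain ⟨hdD, h1, h2, h3, h4, h5, h6, h7, h8, h9⟩ := fDA d hd1
        obtain ⟨s1, s2, s3, s4⟩ := hρ d hdD hd2
        have hcA := DAA hd3
        simp only [hA, mem_filter] at hcA
        obtain ⟨hcD, hcx, hcy, hcpq⟩ := hcA
        obtain ⟨p1, p2, p3, p4⟩ := hp _ hcD hcx
        obtain ⟨q1, q2, q3, q4⟩ := hq _ hcD hcy
        have i1 : ¬ t (ρ d) < t (q (lA (x d))) :=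
          (LA _ h1 d hdD h2.symm h3).2 (ρ d) s1 s2 s3
        have i2 : t (q (ρ d)) ≤ t d := by
          by_contra hcon
          have := s4 _ q1 (q2.trans s2) (by omega)
          omega
        obtain ⟨r1, r2, r3, r4⟩ := hσ (p (ρ d)) p1 ⟨_, hcD, p2.symm, p3⟩
        have i3 : t (ρ d) ≤ t (σ (p (ρ d))) := by
          by_contra hcon
          have := p4 _ r1 (r2.trans p2) (by omega)
          omega
        simp only [R] at hr
        simp only [g]
        omega
      · intro a ha b hb hab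
        rw [Finset.mem_coe] at ha hb
        simp only [mem_filter] at ha hb
        have ha := ha.1
        have hb := hb.1
        simp only [hGd, mem_filter] at ha hb
        have ha3 := DAA ha.2.2.1
        have hb3 := DAA hb.2.2.1
        have ha4 := ha3
        have hb4 := hb3
        simp only [hA, mem_filter] at ha4 hb4
        have h1 : ρ a = ρ b :=
          predfun_inj D t x inj p hp _ (AD ha3) ha4.2.1 _ (AD hb3) hb4.2.1 hab
        exact succfun_inj D t y inj ρ hρ a (AD (DAA ha.1)) ha.2.1 b (AD (DAA hb.1)) hb.2.1 h1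
    omega
  -- many halvings
  have cbig : #{d ∈ DA | 2 * g d ≤ R d} ≤ L * (8 * n) := by
    have := card_le_of_fibers ({d ∈ DA | 2 * g d ≤ R d} : Finset α)
      (fun d => Nat.log 2 (R d)) (range L) (by
        intro d hd
        simp only [mem_filter] at hd
        obtain ⟨hdD, h1, h2, h3, h4, h5, h6, h7, h8, h9⟩ := fDA d hd.1
        rw [mem_range]
        have hh := hL _ h9
        apply Nat.log_lt_of_lt_pow
        · simp only [R]; omega
        · simp only [R]; omega) (8 * n) (by
        intro k _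
        refine le_trans (Finset.card_le_card ?_) (hthr (2 ^ k))
        intro d hd
        simp only [mem_filter] at hd ⊢
        obtain ⟨⟨hd1, hd2⟩, hd3⟩ := hd
        obtain ⟨hdD, h1, h2, h3, h4, h5, h6, h7, h8, h9⟩ := fDA d hd1
        have hR : R d ≠ 0 := by simp only [R]; omega
        have p1 : 2 ^ k ≤ R d := by rw [← hd3]; exact Nat.pow_log_le_self 2 hR
        have p2 : R d < 2 ^ (k + 1) := by
          rw [← hd3]; exact Nat.lt_pow_succ_log_self (by norm_num) _
        rw [pow_succ] at p2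
        exact ⟨hd1, by omega, p1⟩)
    rwa [Finset.card_range] at this
  have csmall : #{d ∈ DA | R d < 2 * g d} ≤ L * n := by
    apply card_le_card_key2 _ x (fun d => Nat.log 2 (R d)) L
    · intro d hd
      simp only [mem_filter] at hd
      obtain ⟨hdD, h1, h2, h3, h4, h5, h6, h7, h8, h9⟩ := fDA d hd.1
      have hh := hL _ h9
      apply Nat.log_lt_of_lt_pow
      · simp only [R]; omega
      · simp only [R]; omega
    · have main : ∀ a ∈ ({d ∈ DA | R d < 2 * g d} : Finset α),
          ∀ b ∈ ({d ∈ DA | R d < 2 * g d} : Finset α), x a = x b →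
          Nat.log 2 (R a) = Nat.log 2 (R b) → ¬ t a < t b := by
        intro a ha b hb hab hk hlt
        simp only [mem_filter] at ha hb
        obtain ⟨haD, h1, h2, h3, h4, h5, h6, h7, h8, h9⟩ := fDA a ha.1
        obtain ⟨hbD, g1, g2, g3, g4, g5, g6, g7, g8, g9⟩ := fDA b hb.1
        obtain ⟨s1, s2, s3, s4⟩ := hσ a haD ⟨_, hbD, hab.symm, hlt⟩
        have k1 := s4 b hbD hab.symm hlt
        have hRa : R a ≠ 0 := by simp only [R]; omega
        have hRb : R b ≠ 0 := by simp only [R]; omega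
        have p1 : 2 ^ Nat.log 2 (R b) ≤ R b := Nat.pow_log_le_self 2 hRb
        have p2 : R a < 2 ^ (Nat.log 2 (R a) + 1) := Nat.lt_pow_succ_log_self (by norm_num) _
        rw [hk, pow_succ] at p2
        have ha2 := ha.2
        simp only [R, g] at ha2 p1 p2
        rw [← hab] at p1 p2 g4
        omega
      intro a ha b hb hab hk
      have haD : a ∈ D := AD (DAA (Finset.filter_subset _ _ ha))
      have hbD : b ∈ D := AD (DAA (Finset.filter_subset _ _ hb))
      rcases lt_trichotomy (t a) (t b) with h | h | h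
      · exact absurd h (main a ha b hb hab hk)
      · exact inj a haD b hbD h
      · exact absurd h (main b hb a ha hab.symm hk.symm)
  have cDA : #DA ≤ #{d ∈ DA | 2 * g d ≤ R d} + #{d ∈ DA | R d < 2 * g d} := by
    refine le_trans (Finset.card_le_card ?_) (Finset.card_union_le _ _)
    intro d hd
    simp only [mem_union, mem_filter]
    rcases Nat.lt_or_ge (R d) (2 * g d) with h | h
    · exact Or.inr ⟨hd, h⟩
    · exact Or.inl ⟨hd, h⟩
  have h0 := Finset.card_le_card cover1
  have v1 := Finset.card_union_le DA (N2 ∪ (N5 ∪ N6))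
  have v2 := Finset.card_union_le N2 (N5 ∪ N6)
  have v3 := Finset.card_union_le N5 N6
  have hfin : (9 * L + 3) * n = L * (8 * n) + L * n + 3 * n := by ring
  omega

end Pool.Agent.W5h10.EO
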