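import Pool.Agent.W5h10.EO.Abs3

set_option autoImplicit false
set_option linter.unusedSectionVars false

open Finset

namespace Pool.Agent.W5h10.EO

variable {V : Type*} [Fintype V] [DecidableEq V]

lemma abs14523_lock {α : Type*} [Nonempty α] (D : Finset α) (t : α → ℕ) (x y : α → V) (L : ℕ)
    (inj : ∀ p ∈ D, ∀ q ∈ D, t p = t q → p = q)
    (hxy : ∀ p ∈ D, ∀ q ∈ D, x p = x q → y p = y q → p = q)
    (hL : ∀ p ∈ D, t p < 2 ^ L)
    (FLx : ∀ c ∈ D, ∀ b ∈ D, x b = x c → t b < t c → ∀ d ∈ D, y d = y c → t d < t b →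
      ∀ e ∈ D, x e = x d → t d < t e → ¬ t e < t b)
    (FLy : ∀ c ∈ D, ∀ b ∈ D, y b = y c → t b < t c → ∀ d ∈ D, x d = x c → t d < t b →
      ∀ e ∈ D, y e = y d → t d < t e → ¬ t e < t b) :
    #D ≤ (18 * L + 8) * Fintype.card V := by
  classical
  obtain ⟨p, hp⟩ := exists_predfun D t x
  obtain ⟨q, hq⟩ := exists_predfun D t y
  have hA := lockA D t x y L inj hxy hL p q hp hq FLx FLy
  have hB := lockA D t y x L inj (fun p hp q hq h1 h2 => hxy p hp q hq h2 h1) hL q p hq hp FLy FLx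
  have n1 : #{c ∈ D | #{e ∈ D | x e = x c ∧ t e < t c} < 1} ≤ 1 * Fintype.card V :=
    few_pred D t x (fun a ha b hb _ h => inj a ha b hb h) 1
  have n2 : #{c ∈ D | #{e ∈ D | y e = y c ∧ t e < t c} < 1} ≤ 1 * Fintype.card V :=
    few_pred D t y (fun a ha b hb _ h => inj a ha b hb h) 1
  have hcover : D ⊆ ({c ∈ D | #{e ∈ D | x e = x c ∧ t e < t c} < 1} ∪
      {c ∈ D | #{e ∈ D | y e = y c ∧ t e < t c} < 1}) ∪
      (({c ∈ D | (∃ e ∈ D, x e = x c ∧ t e < t c) ∧ (∃ e ∈ D, y e = y c ∧ t e < t c) ∧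
        t (p c) < t (q c)}) ∪
      ({c ∈ D | (∃ e ∈ D, y e = y c ∧ t e < t c) ∧ (∃ e ∈ D, x e = x c ∧ t e < t c) ∧
        t (q c) < t (p c)})) := by
    intro d hd
    simp only [mem_union]
    by_cases h1 : #{e ∈ D | x e = x d ∧ t e < t d} < 1
    · left; left; simp only [mem_filter]; exact ⟨hd, h1⟩
    by_cases h2 : #{e ∈ D | y e = y d ∧ t e < t d} < 1
    · left; right; simp only [mem_filter]; exact ⟨hd, h2⟩
    right
    obtain ⟨e, he⟩ := Finset.card_pos.1 (show 0 < #{e ∈ D | x e = x d ∧ t e < t d} by omega)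
    obtain ⟨e', he'⟩ := Finset.card_pos.1 (show 0 < #{e ∈ D | y e = y d ∧ t e < t d} by omega)
    simp only [mem_filter] at he he'
    have hx : ∃ e ∈ D, x e = x d ∧ t e < t d := ⟨e, he.1, he.2⟩
    have hy : ∃ e ∈ D, y e = y d ∧ t e < t d := ⟨e', he'.1, he'.2⟩
    obtain ⟨p1, p2, p3, p4⟩ := hp d hd hx
    obtain ⟨q1, q2, q3, q4⟩ := hq d hd hy
    rcases lt_trichotomy (t (p d)) (t (q d)) with h | h | h
    · left; simp only [mem_filter]; exact ⟨hd, hx, hy, h⟩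
    · exfalso
      have e1 : p d = q d := inj _ p1 _ q1 h
      have e2 : p d = d := hxy _ p1 _ hd p2 (by rw [e1]; exact q2)
      rw [e2] at p3
      omega
    · right; simp only [mem_filter]; exact ⟨hd, hy, hx, h⟩
  have h0 := (Finset.card_le_card hcover).trans (Finset.card_union_le _ _)
  have u1 := Finset.card_union_le {c ∈ D | #{e ∈ D | x e = x c ∧ t e < t c} < 1}
      {c ∈ D | #{e ∈ D | y e = y c ∧ t e < t c} < 1}
  have u2 := Finset.card_union_le
      ({c ∈ D | (∃ e ∈ D, x e = x c ∧ t e < t c) ∧ (∃ e ∈ D, y e = y c ∧ t e < t c) ∧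
        t (p c) < t (q c)})
      ({c ∈ D | (∃ e ∈ D, y e = y c ∧ t e < t c) ∧ (∃ e ∈ D, x e = x c ∧ t e < t c) ∧
        t (q c) < t (p c)})
  have hfin : (18 * L + 8) * Fintype.card V = (9 * L + 3) * Fintype.card V +
    (9 * L + 3) * Fintype.card V + 2 * Fintype.card V := by ring
  omega

/-- The pattern `14523`. -/
lemma abs14523 [Nonempty V] (D : Finset (V × V)) (t : V × V → ℕ) (L : ℕ)
    (inj : ∀ p ∈ D, ∀ q ∈ D, t p = t q → p = q)
    (hL : ∀ p ∈ D, t p < 2 ^ L)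
    (F1 : ∀ b ∈ D, ∀ c ∈ D, ∀ d ∈ D, ∀ e ∈ D, b.2 = c.2 → c.1 = d.1 → d.2 = e.2 →
      t d < t e → t e < t b → t b < t c → b.1 = e.1)
    (F2 : ∀ b ∈ D, ∀ c ∈ D, ∀ d ∈ D, ∀ e ∈ D, b.1 = c.1 → c.2 = d.2 → d.1 = e.1 →
      t d < t e → t e < t b → t b < t c → b.2 = e.2) :
    #D ≤ 4 * ((18 * L + 8) * Fintype.card V) := by
  classical
  obtain ⟨D1, hD1, hc1, ht1⟩ := thin D t (Prod.snd : V × V → V) 2 (by norm_num)
  obtain ⟨D2, hD2, hc2, ht2⟩ := thin D1 t (Prod.fst : V × V → V) 2 (by norm_num)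
  have h12 : D2 ⊆ D := hD2.trans hD1
  have main := abs14523_lock D2 t (Prod.fst : V × V → V) Prod.snd L
    (fun p hp q hq h => inj p (h12 hp) q (h12 hq) h)
    (fun p hp q hq h1 h2 => Prod.ext h1 h2)
    (fun p hp => hL p (h12 hp))
    (by
      intro c hc b hb hbc hlt d hd hdc hlt' e he hed h1 h2
      obtain ⟨e1, he1, e2, he2, hne⟩ := two_of_two_le (ht2 d hd e he hed.symm h1)
      simp only [mem_filter] at he1 he2
      have g1 := F2 b (h12 hb) c (h12 hc) d (h12 hd) e1 (hD1 he1.1) hbc hdc.symm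
        he1.2.1.symm he1.2.2.1 (by omega) hlt
      have g2 := F2 b (h12 hb) c (h12 hc) d (h12 hd) e2 (hD1 he2.1) hbc hdc.symm
        he2.2.1.symm he2.2.2.1 (by omega) hlt
      exact hne (Prod.ext (he1.2.1.trans he2.2.1.symm) (g1.symm.trans g2)))
    (by
      intro c hc b hb hbc hlt d hd hdc hlt' e he hed h1 h2
      obtain ⟨e1, he1, e2, he2, hne⟩ := two_of_two_le (ht1 d (hD2 hd) e (hD2 he) hed.symm h1)
      simp only [mem_filter] at he1 he2
      have g1 := F1 b (h12 hb) c (h12 hc) d (h12 hd) e1 (he1.1) hbc hdc.symm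
        he1.2.1.symm he1.2.2.1 (by omega) hlt
      have g2 := F1 b (h12 hb) c (h12 hc) d (h12 hd) e2 (he2.1) hbc hdc.symm
        he2.2.1.symm he2.2.2.1 (by omega) hlt
      exact hne (Prod.ext (g1.symm.trans g2) (he1.2.1.trans he2.2.1.symm)))
  omega

/-- The hypotheses which a class graph satisfies, for a pattern `R` of the last four edges. -/
structure Good (R : ℕ → ℕ → ℕ → ℕ → Prop) (D : Finset (V × V)) (t : V × V → ℕ) (SX SY : ℕ) :
    Prop where
  inj : ∀ p ∈ D, ∀ q ∈ D, t p = t q → p = q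
  wX : ∀ p ∈ D, ∀ q ∈ D, p.1 = q.1 → 4 * t p < 4 * t q + SX
  wY : ∀ p ∈ D, ∀ q ∈ D, p.2 = q.2 → 4 * t p < 4 * t q + SY
  F1 : ∀ b ∈ D, ∀ c ∈ D, ∀ d ∈ D, ∀ e ∈ D, b.2 = c.2 → c.1 = d.1 → d.2 = e.2 →
      R (t b) (t c) (t d) (t e) → t b < t c + SX → t b < t d + SX → t b < t e + SX → b.1 = e.1
  F2 : ∀ b ∈ D, ∀ c ∈ D, ∀ d ∈ D, ∀ e ∈ D, b.1 = c.1 → c.2 = d.2 → d.1 = e.1 →
      R (t b) (t c) (t d) (t e) → t b < t c + SY → t b < t d + SY → t b < t e + SY → b.2 = e.2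

lemma Good.swap {R : ℕ → ℕ → ℕ → ℕ → Prop} {D : Finset (V × V)} {t : V × V → ℕ} {SX SY : ℕ}
    (h : Good R D t SX SY) : Good R (D.image Prod.swap) (fun p => t p.swap) SY SX := by
  have hm : ∀ p ∈ D.image Prod.swap, p.swap ∈ D := by
    intro p hp
    rw [Finset.mem_image] at hp
    obtain ⟨q, hq, rfl⟩ := hp
    simpa using hq
  constructor
  · intro p hp q hq hpq
    have := h.inj _ (hm p hp) _ (hm q hq) hpq
    exact Prod.swap_injective this
  · intro p hp q hq hpq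
    exact h.wY _ (hm p hp) _ (hm q hq) hpq
  · intro p hp q hq hpq
    exact h.wX _ (hm p hp) _ (hm q hq) hpq
  · intro b hb c hc d hd e he h1 h2 h3
    exact h.F2 _ (hm b hb) _ (hm c hc) _ (hm d hd) _ (hm e he) h1 h2 h3
  · intro b hb c hc d hd e he h1 h2 h3
    exact h.F1 _ (hm b hb) _ (hm c hc) _ (hm d hd) _ (hm e he) h1 h2 h3

def R15423 (b c d e : ℕ) : Prop := d < e ∧ e < c ∧ c < b
def R14532 (b c d e : ℕ) : Prop := e < d ∧ d < b ∧ b < c
def R14523 (b c d e : ℕ) : Prop := d < e ∧ e < b ∧ b < c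

lemma good15423 {D : Finset (V × V)} {t : V × V → ℕ} {SX SY : ℕ}
    (h : Good R15423 D t SX SY) : #D ≤ 6 * Fintype.card V := by
  have main : ∀ (D : Finset (V × V)) (t : V × V → ℕ) (SX SY : ℕ), SX ≤ SY →
      Good R15423 D t SX SY → #D ≤ 6 * Fintype.card V := by
    intro D t SX SY hS h
    apply abs15423 D t SX SY hS h.inj h.wX h.wY
    · intro b hb c hc d hd e he h1 h2 h3 h4 h5 h6 h7
      exact h.F1 b hb c hc d hd e he h1 h2 h3 ⟨h4, h5, h6⟩ (by omega) (by omega) (by omega)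
    · intro b hb c hc d hd e he h1 h2 h3 h4 h5 h6 h7
      exact h.F2 b hb c hc d hd e he h1 h2 h3 ⟨h4, h5, h6⟩ (by omega) (by omega) (by omega)
  rcases Nat.le_total SX SY with hS | hS
  · exact main D t SX SY hS h
  · have := main _ _ _ _ hS h.swap
    rwa [Finset.card_image_of_injective _ Prod.swap_injective] at this

lemma good14532 {D : Finset (V × V)} {t : V × V → ℕ} {SX SY : ℕ}
    (h : Good R14532 D t SX SY) : #D ≤ 6 * Fintype.card V := by
  have main : ∀ (D : Finset (V × V)) (t : V × V → ℕ) (SX SY : ℕ), SX ≤ SY →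
      Good R14532 D t SX SY → #D ≤ 6 * Fintype.card V := by
    intro D t SX SY hS h
    apply abs14532 D t SX SY hS h.inj h.wX h.wY
    · intro b hb c hc d hd e he h1 h2 h3 h4 h5 h6 h7
      exact h.F1 b hb c hc d hd e he h1 h2 h3 ⟨h4, h5, h6⟩ (by omega) (by omega) (by omega)
    · intro b hb c hc d hd e he h1 h2 h3 h4 h5 h6 h7
      exact h.F2 b hb c hc d hd e he h1 h2 h3 ⟨h4, h5, h6⟩ (by omega) (by omega) (by omega)
  rcases Nat.le_total SX SY with hS | hS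
  · exact main D t SX SY hS h
  · have := main _ _ _ _ hS h.swap
    rwa [Finset.card_image_of_injective _ Prod.swap_injective] at this

lemma good14523 [Nonempty V] {D : Finset (V × V)} {t : V × V → ℕ} {SX SY : ℕ} (L : ℕ)
    (h : Good R14523 D t SX SY) (hL : ∀ p ∈ D, t p < 2 ^ L) :
    #D ≤ 4 * ((18 * L + 8) * Fintype.card V) := by
  apply abs14523 D t L h.inj hL
  · intro b hb c hc d hd e he h1 h2 h3 h4 h5 h6
    have := h.wX c hc d hd h2
    exact h.F1 b hb c hc d hd e he h1 h2 h3 ⟨h4, h5, h6⟩ (by omega) (by omega) (by omega)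
  · intro b hb c hc d hd e he h1 h2 h3 h4 h5 h6
    have := h.wY c hc d hd h2
    exact h.F2 b hb c hc d hd e he h1 h2 h3 ⟨h4, h5, h6⟩ (by omega) (by omega) (by omega)

end Pool.Agent.W5h10.EO
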