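import Mathlib

set_option autoImplicit false
set_option linter.unusedSectionVars false

open Finset

namespace Pool.Agent.W5h10.EO

/-! ### A cut lemma -/

section Cut

variable {V : Type*} [Fintype V] [DecidableEq V]

lemma card_color (u v : V) (huv : u ≠ v) :
    4 * #{c : V → Bool | c u = true ∧ c v = false} = 2 ^ Fintype.card V := by
  classical
  have key : ∀ i j : Bool, #{c : V → Bool | (c u, c v) = (i, j)} =
      #{c : V → Bool | c u = true ∧ c v = false} := by
    intro i j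
    apply Finset.card_nbij' (fun c => Function.update (Function.update c u true) v false)
      (fun c => Function.update (Function.update c u i) v j)
    · intro c _
      simp [Function.update, huv]
    · intro c _
      simp [Function.update, huv]
    · intro c hc
      simp only [coe_filter, mem_univ, true_and, Set.mem_ofPred_eq, Prod.mk.injEq] at hc
      funext z
      simp only [Function.update]
      by_cases hz : z = v
      · subst hz; simp [hc.2]
      · by_cases hz' : z = u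
        · subst hz'; simp [hz, hc.1]
        · simp [hz, hz']
    · intro c hc
      simp only [coe_filter, mem_univ, true_and, Set.mem_ofPred_eq] at hc
      funext z
      simp only [Function.update]
      by_cases hz : z = v
      · subst hz; simp [hc.2]
      · by_cases hz' : z = u
        · subst hz'; simp [hz, hc.1]
        · simp [hz, hz']
  have tot : #(univ : Finset (V → Bool)) =
      ∑ b : Bool × Bool, #{c : V → Bool | (c u, c v) = b} :=
    Finset.card_eq_sum_card_fiberwise (fun _ _ => Finset.mem_univ _)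
  have h1 : #(univ : Finset (V → Bool)) = 2 ^ Fintype.card V := by
    simp [Finset.card_univ]
  rw [← h1, tot]
  rw [Finset.sum_congr rfl (fun b _ => key b.1 b.2)]
  simp

lemma exists_cut (F : Finset (V × V)) (hF : ∀ p ∈ F, p.1 ≠ p.2) :
    ∃ c : V → Bool, #F ≤ 4 * #{p ∈ F | c p.1 = true ∧ c p.2 = false} := by
  classical
  by_contra hcon
  push Not at hcon
  have h1 : ∑ c : V → Bool, 4 * #{p ∈ F | c p.1 = true ∧ c p.2 = false}
      < ∑ _c : V → Bool, #F := by
    apply Finset.sum_lt_sum_of_nonempty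
    · exact Finset.univ_nonempty
    · intro c _
      exact hcon c
  have h2 : ∑ c : V → Bool, 4 * #{p ∈ F | c p.1 = true ∧ c p.2 = false}
      = ∑ _c : V → Bool, #F := by
    have : ∀ c : V → Bool, 4 * #{p ∈ F | c p.1 = true ∧ c p.2 = false}
        = ∑ p ∈ F, (if c p.1 = true ∧ c p.2 = false then 4 else 0) := by
      intro c
      rw [Finset.card_filter, Finset.mul_sum]
      apply Finset.sum_congr rfl
      intro p _
      split_ifs <;> simp
    rw [Finset.sum_congr rfl (fun c _ => this c), Finset.sum_comm]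
    have h3 : ∀ p ∈ F, ∑ c : V → Bool, (if c p.1 = true ∧ c p.2 = false then 4 else 0)
        = 2 ^ Fintype.card V := by
      intro p hp
      rw [← card_color p.1 p.2 (hF p hp), Finset.card_filter, Finset.mul_sum]
      apply Finset.sum_congr rfl
      intro c _
      split_ifs <;> simp
    rw [Finset.sum_congr rfl h3]
    simp [Finset.card_univ, mul_comm]
  omega

end Cut

/-! ### Age classes -/

section Classes

/-- The dyadic class (refined into four parts) of an age. -/
def cl (A : ℕ) : ℕ × ℕ := (Nat.log 2 A, 4 * A / 2 ^ Nat.log 2 A)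

lemma cl_mem {A L : ℕ} (h1 : 1 ≤ A) (h2 : A < 2 ^ L) : cl A ∈ range L ×ˢ Ico 4 8 := by
  have hA : A ≠ 0 := by omega
  have e1 : Nat.log 2 A < L := Nat.log_lt_of_lt_pow hA h2
  have e2 : 2 ^ Nat.log 2 A ≤ A := Nat.pow_log_le_self 2 hA
  have e3 : A < 2 ^ (Nat.log 2 A + 1) := Nat.lt_pow_succ_log_self (by norm_num) A
  simp only [cl, mem_product, mem_range, mem_Ico]
  refine ⟨e1, ?_, ?_⟩
  · rw [Nat.le_div_iff_mul_le (by positivity)]
    omega
  · rw [Nat.div_lt_iff_lt_mul (by positivity)]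
    rw [pow_succ] at e3
    omega

lemma card_clset (L : ℕ) : #(range L ×ˢ Ico 4 8) = 4 * L := by
  rw [Finset.card_product]; simp [mul_comm]

lemma cl_eq {A A' : ℕ} (h : cl A = cl A') : 4 * A < 4 * A' + 2 ^ Nat.log 2 A' := by
  simp only [cl, Prod.mk.injEq] at h
  obtain ⟨h1, h2⟩ := h
  rw [h1] at h2
  set s := 2 ^ Nat.log 2 A' with hs
  have hspos : 0 < s := by positivity
  have e1 : 4 * A < s * (4 * A / s + 1) := Nat.lt_mul_div_succ _ hspos
  have e2 : s * (4 * A' / s) ≤ 4 * A' := Nat.mul_div_le _ _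
  rw [h2, mul_add, mul_one] at e1
  omega

lemma cl_le {A : ℕ} (h : 1 ≤ A) : 2 ^ Nat.log 2 A ≤ A := Nat.pow_log_le_self 2 (by omega)

end Classes

/-! ### Counting lemmas -/

section Count

variable {α K : Type*} [Fintype K] [DecidableEq K]

lemma card_le_of_fibers {α κ : Type*} [DecidableEq κ] (E : Finset α) (f : α → κ)
    (T : Finset κ) (hf : ∀ a ∈ E, f a ∈ T) (B : ℕ)
    (hB : ∀ k ∈ T, #{a ∈ E | f a = k} ≤ B) : #E ≤ #T * B := by
  have := Finset.card_le_mul_card_image_of_maps_to hf B hB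
  rw [mul_comm]; exact this

/-- At most `m` elements with fewer than `m` `r`-successors in each fibre. -/
lemma few (C : Finset α) (t : α → ℕ) (κ : α → K) (r : ℕ → ℕ → Prop) [DecidableRel r]
    [IsStrictTotalOrder ℕ r]
    (hinj : ∀ p ∈ C, ∀ q ∈ C, κ p = κ q → t p = t q → p = q) (m : ℕ) :
    #{c ∈ C | #{e ∈ C | κ e = κ c ∧ r (t c) (t e)} < m} ≤ m * Fintype.card K := by
  classical
  have : #{c ∈ C | #{e ∈ C | κ e = κ c ∧ r (t c) (t e)} < m} ≤
      #((univ : Finset K) ×ˢ range m) := by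
    apply Finset.card_le_card_of_injOn
      (fun c => (κ c, #{e ∈ C | κ e = κ c ∧ r (t c) (t e)}))
    · intro c hc
      simp only [coe_filter, Set.mem_ofPred_eq] at hc
      simp [hc.2]
    · intro c hc d hd hcd
      simp only [coe_filter, Set.mem_ofPred_eq] at hc hd
      simp only [Prod.mk.injEq] at hcd
      obtain ⟨hk, hcard⟩ := hcd
      have aux : ∀ c ∈ C, ∀ d ∈ C, κ c = κ d →
          #{e ∈ C | κ e = κ c ∧ r (t c) (t e)} = #{e ∈ C | κ e = κ d ∧ r (t d) (t e)} →
          ¬ r (t c) (t d) := by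
        intro c hc d hd hk hcard hr
        have hss : ({e ∈ C | κ e = κ d ∧ r (t d) (t e)} : Finset α) ⊂
            {e ∈ C | κ e = κ c ∧ r (t c) (t e)} := by
          rw [Finset.ssubset_iff_of_subset]
          · refine ⟨d, ?_, ?_⟩
            · simp [hd, hk, hr]
            · simp only [mem_filter, not_and]
              intro _ _
              exact irrefl_of r (t d)
          · intro e he
            simp only [mem_filter] at he ⊢
            exact ⟨he.1, he.2.1.trans hk.symm, _root_.trans hr he.2.2⟩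
        have := Finset.card_lt_card hss
        omega
      have n1 := aux c hc.1 d hd.1 hk hcard
      have n2 := aux d hd.1 c hc.1 hk.symm hcard.symm
      rcases trichotomous_of r (t c) (t d) with h | h | h
      · exact absurd h n1
      · exact hinj c hc.1 d hd.1 hk h
      · exact absurd h n2
  rw [Finset.card_product, Finset.card_range, Finset.card_univ] at this
  rw [mul_comm]; exact this

lemma few_succ (C : Finset α) (t : α → ℕ) (κ : α → K)
    (hinj : ∀ p ∈ C, ∀ q ∈ C, κ p = κ q → t p = t q → p = q) (m : ℕ) :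
    #{c ∈ C | #{e ∈ C | κ e = κ c ∧ t c < t e} < m} ≤ m * Fintype.card K :=
  few C t κ (· < ·) hinj m

lemma few_pred (C : Finset α) (t : α → ℕ) (κ : α → K)
    (hinj : ∀ p ∈ C, ∀ q ∈ C, κ p = κ q → t p = t q → p = q) (m : ℕ) :
    #{c ∈ C | #{e ∈ C | κ e = κ c ∧ t e < t c} < m} ≤ m * Fintype.card K :=
  few C t κ (· > ·) hinj m

/-- Thinning: keep one residue class of ranks. -/
lemma thin (C : Finset α) (t : α → ℕ) (κ : α → K)
    (m : ℕ) (hm : 0 < m) :
    ∃ C' ⊆ C, #C ≤ m * #C' ∧ ∀ c ∈ C', ∀ c' ∈ C', κ c = κ c' → t c < t c' →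
      m ≤ #{e ∈ C | κ e = κ c ∧ t c < t e ∧ t e ≤ t c'} := by
  classical
  let rk : α → ℕ := fun c => #{e ∈ C | κ e = κ c ∧ t e ≤ t c}
  have hex : ∃ j ∈ range m, #C ≤ m * #{c ∈ C | rk c % m = j} := by
    by_contra hcon
    push Not at hcon
    have h1 : #C = ∑ j ∈ range m, #{c ∈ C | rk c % m = j} :=
      Finset.card_eq_sum_card_fiberwise (fun c _ => by
        simp only [coe_range, Set.mem_Iio]
        exact Nat.mod_lt _ hm)
    have h2 : ∑ j ∈ range m, m * #{c ∈ C | rk c % m = j} < ∑ _j ∈ range m, #C := by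
      apply Finset.sum_lt_sum_of_nonempty ⟨0, mem_range.2 hm⟩
      intro j hj
      exact hcon j hj
    rw [← Finset.mul_sum, ← h1] at h2
    simp at h2
  obtain ⟨j, _, hj⟩ := hex
  refine ⟨{c ∈ C | rk c % m = j}, Finset.filter_subset _ _, hj, ?_⟩
  intro c hc c' hc' hk hlt
  simp only [mem_filter] at hc hc'
  have hsplit : rk c' = rk c + #{e ∈ C | κ e = κ c ∧ t c < t e ∧ t e ≤ t c'} := by
    simp only [rk]
    rw [← Finset.card_union_of_disjoint]
    · congr 1
      ext e
      simp only [mem_filter, mem_union]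
      constructor
      · rintro ⟨h1, h2, h3⟩
        by_cases h4 : t e ≤ t c
        · exact Or.inl ⟨h1, h2.trans hk.symm, h4⟩
        · exact Or.inr ⟨h1, h2.trans hk.symm, by omega, h3⟩
      · rintro (⟨h1, h2, h3⟩ | ⟨h1, h2, h3, h4⟩)
        · exact ⟨h1, h2.trans hk, by omega⟩
        · exact ⟨h1, h2.trans hk, h4⟩
    · rw [Finset.disjoint_left]
      intro e he he'
      simp only [mem_filter] at he he'
      omega
  have hpos : 0 < #{e ∈ C | κ e = κ c ∧ t c < t e ∧ t e ≤ t c'} := by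
    apply Finset.card_pos.2
    exact ⟨c', by simp [hc'.1, hk, hlt]⟩
  have hmod : rk c ≡ rk c' [MOD m] := by
    unfold Nat.ModEq
    rw [hc.2, hc'.2]
  rw [hsplit] at hmod
  have h0 : #{e ∈ C | κ e = κ c ∧ t c < t e ∧ t e ≤ t c'} ≡ 0 [MOD m] := by
    have h5 : rk c + #{e ∈ C | κ e = κ c ∧ t c < t e ∧ t e ≤ t c'} ≡ rk c + 0 [MOD m] := by
      simpa using hmod.symm
    exact Nat.ModEq.add_left_cancel' _ h5
  exact Nat.le_of_dvd hpos ((Nat.modEq_zero_iff_dvd).1 h0)

/-- Immediate predecessor function in each fibre. -/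
lemma exists_predfun (D : Finset α) (t : α → ℕ) (κ : α → K) :
    ∃ p : α → α, ∀ c ∈ D, (∃ e ∈ D, κ e = κ c ∧ t e < t c) →
      p c ∈ D ∧ κ (p c) = κ c ∧ t (p c) < t c ∧
      ∀ e ∈ D, κ e = κ c → t e < t c → t e ≤ t (p c) := by
  classical
  have : ∀ c, ∃ q : α, c ∈ D → (∃ e ∈ D, κ e = κ c ∧ t e < t c) →
      q ∈ D ∧ κ q = κ c ∧ t q < t c ∧
      ∀ e ∈ D, κ e = κ c → t e < t c → t e ≤ t q := by
    intro c
    by_cases h : c ∈ D ∧ (∃ e ∈ D, κ e = κ c ∧ t e < t c)
    · obtain ⟨_, e, he, he2, he3⟩ := h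
      obtain ⟨q, hq, hmax⟩ := Finset.exists_max_image {e ∈ D | κ e = κ c ∧ t e < t c} t
        ⟨e, by simp [he, he2, he3]⟩
      simp only [mem_filter] at hq hmax
      exact ⟨q, fun _ _ => ⟨hq.1, hq.2.1, hq.2.2, fun e h1 h2 h3 => hmax e ⟨h1, h2, h3⟩⟩⟩
    · exact ⟨c, fun h1 h2 => absurd ⟨h1, h2⟩ h⟩
  choose p hp using this
  exact ⟨p, hp⟩

/-- Immediate successor function in each fibre. -/
lemma exists_succfun (D : Finset α) (t : α → ℕ) (κ : α → K) :
    ∃ p : α → α, ∀ c ∈ D, (∃ e ∈ D, κ e = κ c ∧ t c < t e) →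
      p c ∈ D ∧ κ (p c) = κ c ∧ t c < t (p c) ∧
      ∀ e ∈ D, κ e = κ c → t c < t e → t (p c) ≤ t e := by
  classical
  have : ∀ c, ∃ q : α, c ∈ D → (∃ e ∈ D, κ e = κ c ∧ t c < t e) →
      q ∈ D ∧ κ q = κ c ∧ t c < t q ∧
      ∀ e ∈ D, κ e = κ c → t c < t e → t q ≤ t e := by
    intro c
    by_cases h : c ∈ D ∧ (∃ e ∈ D, κ e = κ c ∧ t c < t e)
    · obtain ⟨_, e, he, he2, he3⟩ := h
      obtain ⟨q, hq, hmin⟩ := Finset.exists_min_image {e ∈ D | κ e = κ c ∧ t c < t e} t
        ⟨e, by simp [he, he2, he3]⟩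
      simp only [mem_filter] at hq hmin
      exact ⟨q, fun _ _ => ⟨hq.1, hq.2.1, hq.2.2, fun e h1 h2 h3 => hmin e ⟨h1, h2, h3⟩⟩⟩
    · exact ⟨c, fun h1 h2 => absurd ⟨h1, h2⟩ h⟩
  choose p hp using this
  exact ⟨p, hp⟩

/-- Last element of each fibre. -/
lemma exists_lastfun [Nonempty α] (A : Finset α) (t : α → ℕ) (κ : α → K) :
    ∃ f : K → α, ∀ a ∈ A, f (κ a) ∈ A ∧ κ (f (κ a)) = κ a ∧ t a ≤ t (f (κ a)) := by
  classical
  have : ∀ k, ∃ q : α, ∀ a ∈ A, κ a = k → q ∈ A ∧ κ q = k ∧ t a ≤ t q := by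
    intro k
    by_cases h : ∃ a ∈ A, κ a = k
    · obtain ⟨a, ha, hk⟩ := h
      obtain ⟨q, hq, hmax⟩ := Finset.exists_max_image {a ∈ A | κ a = k} t
        ⟨a, by simp [ha, hk]⟩
      simp only [mem_filter] at hq hmax
      exact ⟨q, fun a h1 h2 => ⟨hq.1, hq.2, hmax a ⟨h1, h2⟩⟩⟩
    · exact ⟨Classical.arbitrary α, fun a h1 h2 => absurd ⟨a, h1, h2⟩ h⟩
  choose f hf using this
  exact ⟨f, fun a ha => hf (κ a) a ha rfl⟩

/-- First element of each fibre. -/
lemma exists_firstfun [Nonempty α] (A : Finset α) (t : α → ℕ) (κ : α → K) :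
    ∃ f : K → α, ∀ a ∈ A, f (κ a) ∈ A ∧ κ (f (κ a)) = κ a ∧ t (f (κ a)) ≤ t a := by
  classical
  have : ∀ k, ∃ q : α, ∀ a ∈ A, κ a = k → q ∈ A ∧ κ q = k ∧ t q ≤ t a := by
    intro k
    by_cases h : ∃ a ∈ A, κ a = k
    · obtain ⟨a, ha, hk⟩ := h
      obtain ⟨q, hq, hmin⟩ := Finset.exists_min_image {a ∈ A | κ a = k} t
        ⟨a, by simp [ha, hk]⟩
      simp only [mem_filter] at hq hmin
      exact ⟨q, fun a h1 h2 => ⟨hq.1, hq.2, hmin a ⟨h1, h2⟩⟩⟩
    · exact ⟨Classical.arbitrary α, fun a h1 h2 => absurd ⟨a, h1, h2⟩ h⟩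
  choose f hf using this
  exact ⟨f, fun a ha => hf (κ a) a ha rfl⟩

/-- A set on which `κ` is injective has at most `card K` elements. -/
lemma card_le_card_key (A : Finset α) (κ : α → K) (h : ∀ a ∈ A, ∀ b ∈ A, κ a = κ b → a = b) :
    #A ≤ Fintype.card K := by
  rw [← Finset.card_univ]
  exact Finset.card_le_card_of_injOn κ (fun _ _ => Finset.mem_coe.2 (Finset.mem_univ _))
    (fun a ha b hb hab => h a (Finset.mem_coe.1 ha) b (Finset.mem_coe.1 hb) hab)

end Count

end Pool.Agent.W5h10.EO
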