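import Pool.Agent.W5h10.EO.Graph2

set_option autoImplicit false
set_option linter.unusedSectionVars false

open Finset

namespace Pool.Agent.W5h10.EO

/-- Data extracted from an edge-ordered graph on `Fin n`. -/
structure Enc (n L : ℕ) (E : Finset (Fin n × Fin n)) (w : Fin n → Fin n → ℕ) : Prop where
  irr : ∀ p ∈ E, p.1 ≠ p.2
  symm : ∀ p ∈ E, p.swap ∈ E
  wsymm : ∀ u v, w u v = w v u
  winj : ∀ p ∈ E, ∀ q ∈ E, w p.1 p.2 = w q.1 q.2 → p = q ∨ p = q.swap
  wL : ∀ p ∈ E, w p.1 p.2 < 2 ^ L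

lemma log_bound {n : ℕ} (hn : 2 ≤ n) :
    ((2 * (Nat.log 2 n + 1) : ℕ) : ℝ) ≤ 6 * Real.log n := by
  have h1 : (Nat.log 2 n : ℝ) ≤ Real.logb 2 n := Real.natLog_le_logb n 2
  have h2 : Real.logb 2 n = Real.log n / Real.log 2 := rfl
  have h3 : (0.6931471803 : ℝ) < Real.log 2 := Real.log_two_gt_d9
  have h4 : Real.log 2 ≤ Real.log n := by
    apply Real.log_le_log (by norm_num)
    exact_mod_cast hn
  have h5 : Real.log n / Real.log 2 ≤ Real.log n / 0.6931471803 := by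
    apply div_le_div_of_nonneg_left (by linarith) (by norm_num) h3.le
  have h6 : Real.log n / 0.6931471803 ≤ 1.4427 * Real.log n := by
    rw [div_le_iff₀ (by norm_num)]
    nlinarith
  have h7 : (1 : ℝ) ≤ 1.4427 * Real.log n := by
    nlinarith
  push_cast
  linarith

lemma conv {e A n L k : ℕ} (hn : 2 ≤ n) (hL : L = 2 * (Nat.log 2 n + 1))
    (h : e ≤ A * n * L ^ k) :
    (e : ℝ) ≤ (A * 6 ^ k : ℝ) * n * (Real.log n) ^ k := by
  have h1 : (L : ℝ) ≤ 6 * Real.log n := by rw [hL]; exact log_bound hn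
  have h2 : (L : ℝ) ^ k ≤ (6 * Real.log n) ^ k := pow_le_pow_left₀ (by positivity) h1 k
  have h3 : (e : ℝ) ≤ A * n * (L : ℝ) ^ k := by exact_mod_cast h
  calc (e : ℝ) ≤ A * n * (L : ℝ) ^ k := h3
    _ ≤ A * n * (6 * Real.log n) ^ k := by gcongr
    _ = (A * 6 ^ k : ℝ) * n * (Real.log n) ^ k := by rw [mul_pow]; ring

section Bounds

variable {n L : ℕ} {E : Finset (Fin n × Fin n)} {w : Fin n → Fin n → ℕ}

lemma bound15423 (hL : 1 ≤ L) (h : Enc n L E w)
    (free : ∀ v0 v1 v2 v3 v4 v5 : Fin n, [v0, v1, v2, v3, v4, v5].Nodup →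
      (v0, v1) ∈ E → (v1, v2) ∈ E → (v2, v3) ∈ E → (v3, v4) ∈ E → (v4, v5) ∈ E →
      w v0 v1 < w v3 v4 → w v3 v4 < w v4 v5 → w v4 v5 < w v2 v3 → ¬ w v2 v3 < w v1 v2) :
    #E ≤ 392 * n * L ^ 2 := by
  have := pendant R15423 (by intro b c d e h; unfold R15423 at h; omega) E w L (6 * n)
    h.irr h.symm h.wsymm h.winj h.wL
    (by
      intro D t SX SY hg _
      have := good15423 hg
      rwa [Fintype.card_fin] at this)
    (by
      intro v0 v1 v2 v3 v4 v5 hnd e1 e2 e3 e4 e5 _ _ l1 _ hR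
      exact free v0 v1 v2 v3 v4 v5 hnd e1 e2 e3 e4 e5 l1 hR.1 hR.2.1 hR.2.2)
  rw [Fintype.card_fin] at this
  have h1 : 8 * n ≤ 8 * n * L ^ 2 := Nat.le_mul_of_pos_right _ (by positivity)
  calc #E ≤ 8 * n + 4 * (4 * L * (4 * L) * (6 * n)) := this
    _ ≤ 8 * n * L ^ 2 + 4 * (4 * L * (4 * L) * (6 * n)) := by omega
    _ = 392 * n * L ^ 2 := by ring

lemma bound14532 (hL : 1 ≤ L) (h : Enc n L E w)
    (free : ∀ v0 v1 v2 v3 v4 v5 : Fin n, [v0, v1, v2, v3, v4, v5].Nodup →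
      (v0, v1) ∈ E → (v1, v2) ∈ E → (v2, v3) ∈ E → (v3, v4) ∈ E → (v4, v5) ∈ E →
      w v0 v1 < w v4 v5 → w v4 v5 < w v3 v4 → w v3 v4 < w v1 v2 → ¬ w v1 v2 < w v2 v3) :
    #E ≤ 392 * n * L ^ 2 := by
  have := pendant R14532 (by intro b c d e h; unfold R14532 at h; omega) E w L (6 * n)
    h.irr h.symm h.wsymm h.winj h.wL
    (by
      intro D t SX SY hg _
      have := good14532 hg
      rwa [Fintype.card_fin] at this)
    (by
      intro v0 v1 v2 v3 v4 v5 hnd e1 e2 e3 e4 e5 _ _ _ l1 hR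
      exact free v0 v1 v2 v3 v4 v5 hnd e1 e2 e3 e4 e5 l1 hR.1 hR.2.1 hR.2.2)
  rw [Fintype.card_fin] at this
  have h1 : 8 * n ≤ 8 * n * L ^ 2 := Nat.le_mul_of_pos_right _ (by positivity)
  calc #E ≤ 8 * n + 4 * (4 * L * (4 * L) * (6 * n)) := this
    _ ≤ 8 * n * L ^ 2 + 4 * (4 * L * (4 * L) * (6 * n)) := by omega
    _ = 392 * n * L ^ 2 := by ring

lemma bound14523 (hn : 0 < n) (hL : 1 ≤ L) (h : Enc n L E w)
    (free : ∀ v0 v1 v2 v3 v4 v5 : Fin n, [v0, v1, v2, v3, v4, v5].Nodup →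
      (v0, v1) ∈ E → (v1, v2) ∈ E → (v2, v3) ∈ E → (v3, v4) ∈ E → (v4, v5) ∈ E →
      w v0 v1 < w v3 v4 → w v3 v4 < w v4 v5 → w v4 v5 < w v1 v2 → ¬ w v1 v2 < w v2 v3) :
    #E ≤ 6664 * n * L ^ 3 := by
  have : Nonempty (Fin n) := ⟨⟨0, hn⟩⟩
  have := pendant R14523 (by intro b c d e h; unfold R14523 at h; omega) E w L
    (4 * ((18 * L + 8) * n))
    h.irr h.symm h.wsymm h.winj h.wL
    (by
      intro D t SX SY hg hlt
      have := good14523 L hg hlt
      rwa [Fintype.card_fin] at this)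
    (by
      intro v0 v1 v2 v3 v4 v5 hnd e1 e2 e3 e4 e5 _ _ l1 _ hR
      exact free v0 v1 v2 v3 v4 v5 hnd e1 e2 e3 e4 e5 l1 hR.1 hR.2.1 hR.2.2)
  rw [Fintype.card_fin] at this
  have h1 : 8 * n ≤ 8 * n * L ^ 3 := Nat.le_mul_of_pos_right _ (by positivity)
  have h2 : 4 * (4 * L * (4 * L) * (4 * ((18 * L + 8) * n))) ≤ 6656 * n * L ^ 3 := by
    have h3 : 4 * (4 * L * (4 * L) * (4 * ((18 * L + 8) * n))) = 256 * n * L ^ 2 * (18 * L + 8) := by
      ring
    have h4 : 256 * n * L ^ 2 * (18 * L + 8) ≤ 256 * n * L ^ 2 * (26 * L) :=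
      Nat.mul_le_mul_left _ (by omega)
    rw [h3]
    refine h4.trans (le_of_eq (by ring))
  calc #E ≤ 8 * n + 4 * (4 * L * (4 * L) * (4 * ((18 * L + 8) * n))) := this
    _ ≤ 8 * n * L ^ 3 + 6656 * n * L ^ 3 := by omega
    _ = 6664 * n * L ^ 3 := by ring

lemma bound21453 (hn : 0 < n) (hL : 1 ≤ L) (h : Enc n L E w)
    (free : ∀ v0 v1 v2 v3 v4 v5 : Fin n, [v0, v1, v2, v3, v4, v5].Nodup →
      (v0, v1) ∈ E → (v1, v2) ∈ E → (v2, v3) ∈ E → (v3, v4) ∈ E → (v4, v5) ∈ E →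
      w v1 v2 < w v0 v1 → w v0 v1 < w v4 v5 → w v4 v5 < w v2 v3 → ¬ w v2 v3 < w v3 v4) :
    #E ≤ 888 * n * L ^ 2 := by
  have : Nonempty (Fin n) := ⟨⟨0, hn⟩⟩
  have := g21453 E w L h.irr h.symm h.wsymm h.winj h.wL free
  rw [Fintype.card_fin] at this
  have h1 : 24 * n ≤ 24 * n * L ^ 2 := Nat.le_mul_of_pos_right _ (by positivity)
  have h2 : 480 * n * L ≤ 480 * n * L ^ 2 := by
    apply Nat.mul_le_mul_left
    nlinarith
  calc #E ≤ 24 * n + 4 * (4 * L * (4 * L) * (2 * n)) +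
        2 * (4 * (4 * L * (3 * n + 4 * ((2 * L + 3) * n)))) := this
    _ = 24 * n + 384 * n * L ^ 2 + 480 * n * L := by ring
    _ ≤ 24 * n * L ^ 2 + 384 * n * L ^ 2 + 480 * n * L ^ 2 := by omega
    _ = 888 * n * L ^ 2 := by ring

end Bounds

lemma exists_label {α : Type*} [Fintype α] (ord : LinearOrder α) :
    ∃ lab : α → ℕ, (∀ e e', lab e = lab e' → e = e') ∧ (∀ e e', lab e < lab e' → ord.lt e e') ∧
      ∀ e, lab e ≤ Fintype.card α := by
  classical
  let lab : α → ℕ := fun e => #{f : α | f < e}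
  have hmono : ∀ e e' : α, e < e' → lab e < lab e' := by
    intro e e' h
    apply Finset.card_lt_card
    rw [Finset.ssubset_iff_of_subset]
    · refine ⟨e, ?_, ?_⟩
      · simp [h]
      · simp
    · intro f hf
      simp only [mem_filter, mem_univ, true_and] at hf ⊢
      exact hf.trans h
  refine ⟨lab, ?_, ?_, ?_⟩
  · intro e e' h
    rcases lt_trichotomy e e' with h' | h' | h'
    · have := hmono _ _ h'; omega
    · exact h'
    · have := hmono _ _ h'; omega
  · intro e e' h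
    rcases lt_trichotomy e e' with h' | h' | h'
    · exact h'
    · rw [h'] at h; omega
    · have := hmono _ _ h'; omega
  · intro e
    exact Finset.card_le_univ _

/-- Encoding of a simple graph with a linear order on its edge set. -/
theorem exists_enc {n : ℕ} (hn : 2 ≤ n) (G : SimpleGraph (Fin n)) (ord : LinearOrder G.edgeSet) :
    ∃ (E : Finset (Fin n × Fin n)) (w : Fin n → Fin n → ℕ),
      Enc n (2 * (Nat.log 2 n + 1)) E w ∧ #E = 2 * G.edgeSet.ncard ∧
      (∀ u v, (u, v) ∈ E ↔ G.Adj u v) ∧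
      ∀ (a b c d : Fin n) (h : G.Adj a b) (h' : G.Adj c d), w a b < w c d →
        ord.lt ⟨s(a, b), h⟩ ⟨s(c, d), h'⟩ := by
  classical
  obtain ⟨lab, hinj, hlt, hle⟩ := exists_label ord
  let w : Fin n → Fin n → ℕ := fun u v => if h : G.Adj u v then lab ⟨s(u, v), h⟩ else 0
  have hw : ∀ u v (h : G.Adj u v), w u v = lab ⟨s(u, v), h⟩ := by
    intro u v h
    simp only [w, dif_pos h]
  refine ⟨univ.filter (fun p => G.Adj p.1 p.2), w, ?_, ?_, ?_, ?_⟩
  · refine ⟨?_, ?_, ?_, ?_, ?_⟩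
    · intro p hp
      simp only [mem_filter, mem_univ, true_and] at hp
      exact hp.ne
    · intro p hp
      simp only [mem_filter, mem_univ, true_and] at hp ⊢
      exact hp.symm
    · intro u v
      by_cases h : G.Adj u v
      · rw [hw u v h, hw v u h.symm]
        congr 1
        exact Subtype.ext Sym2.eq_swap
      · have h' : ¬ G.Adj v u := fun h' => h h'.symm
        simp only [w, dif_neg h, dif_neg h']
    · intro p hp q hq hpq
      simp only [mem_filter, mem_univ, true_and] at hp hq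
      rw [hw _ _ hp, hw _ _ hq] at hpq
      have := congrArg Subtype.val (hinj _ _ hpq)
      simp only at this
      rw [Sym2.eq_iff] at this
      rcases this with h | h
      · exact Or.inl (Prod.ext h.1 h.2)
      · exact Or.inr (Prod.ext h.1 h.2)
    · intro p hp
      simp only [mem_filter, mem_univ, true_and] at hp
      rw [hw _ _ hp]
      have h1 : lab ⟨s(p.1, p.2), hp⟩ ≤ Fintype.card G.edgeSet := hle _
      have h2 : Fintype.card G.edgeSet ≤ n.choose 2 := by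
        have := G.card_edgeFinset_le_card_choose_two
        rw [Fintype.card_fin] at this
        rw [← SimpleGraph.edgeFinset_card]
        exact this
      have h3 : n.choose 2 < n * n := by
        rw [Nat.choose_two_right]
        have : n * (n - 1) / 2 ≤ n * (n - 1) := Nat.div_le_self _ _
        have h4 : n * (n - 1) < n * n := Nat.mul_lt_mul_of_pos_left (by omega) (by omega)
        omega
      have h4 : n < 2 ^ (Nat.log 2 n + 1) := Nat.lt_pow_succ_log_self (by norm_num) n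
      have h5 : n * n ≤ 2 ^ (2 * (Nat.log 2 n + 1)) := by
        rw [two_mul, pow_add]
        exact Nat.mul_le_mul h4.le h4.le
      omega
  · have h1 := G.two_mul_card_edgeFinset
    have h2 : G.edgeSet.ncard = #G.edgeFinset := by
      rw [← SimpleGraph.coe_edgeFinset, Set.ncard_coe_finset]
    rw [h2, h1]
  · intro u v
    simp
  · intro a b c d h h' hlt'
    rw [hw _ _ h, hw _ _ h'] at hlt'
    exact hlt _ _ hlt'

end Pool.Agent.W5h10.EO
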