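import Pool.Agent.W5h10.EO.Abs4

set_option autoImplicit false
set_option linter.unusedSectionVars false

open Finset

namespace Pool.Agent.W5h10.EO

variable {V : Type*} [Fintype V] [DecidableEq V]

/-- Reduction to class graphs. -/
lemma twosided (E : Finset (V × V)) (w : V → V → ℕ) (β : V → ℕ) (L K : ℕ)
    (irr : ∀ p ∈ E, p.1 ≠ p.2)
    (winj : ∀ p ∈ E, ∀ q ∈ E, w p.1 p.2 = w q.1 q.2 → p = q ∨ p = q.swap)
    (wL : ∀ p ∈ E, w p.1 p.2 < 2 ^ L)
    (hβ1 : ∀ p ∈ E, β p.1 < w p.1 p.2) (hβ2 : ∀ p ∈ E, β p.2 < w p.1 p.2)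
    (hK : ∀ D ⊆ E, ∀ SX SY : ℕ, (∀ p ∈ D, ∀ q ∈ D, p.1 ≠ q.2) →
      (∀ p ∈ D, ∀ q ∈ D, w p.1 p.2 = w q.1 q.2 → p = q) →
      (∀ p ∈ D, ∀ q ∈ D, p.1 = q.1 → 4 * w p.1 p.2 < 4 * w q.1 q.2 + SX) →
      (∀ p ∈ D, ∀ q ∈ D, p.2 = q.2 → 4 * w p.1 p.2 < 4 * w q.1 q.2 + SY) →
      (∀ p ∈ D, β p.1 + SX ≤ w p.1 p.2) → (∀ p ∈ D, β p.2 + SY ≤ w p.1 p.2) →
      #D ≤ K) :
    #E ≤ 4 * ((4 * L * (4 * L)) * K) := by
  classical
  obtain ⟨c, hc⟩ := exists_cut E irr
  set E1 : Finset (V × V) := {p ∈ E | c p.1 = true ∧ c p.2 = false} with hE1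
  have E1E : E1 ⊆ E := Finset.filter_subset _ _
  have key : #E1 ≤ #((range L ×ˢ Ico 4 8) ×ˢ (range L ×ˢ Ico 4 8)) * K := by
    apply card_le_of_fibers E1 (fun p => (cl (w p.1 p.2 - β p.1), cl (w p.1 p.2 - β p.2)))
    · intro p hp
      have h1 := hβ1 p (E1E hp)
      have h2 := hβ2 p (E1E hp)
      have h3 := wL p (E1E hp)
      rw [Finset.mem_product]
      exact ⟨cl_mem (by omega) (by omega), cl_mem (by omega) (by omega)⟩
    · intro k _
      set D : Finset (V × V) :=
        {p ∈ E1 | (cl (w p.1 p.2 - β p.1), cl (w p.1 p.2 - β p.2)) = k} with hD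
      have DE1 : D ⊆ E1 := Finset.filter_subset _ _
      have hk : ∀ p ∈ D, cl (w p.1 p.2 - β p.1) = k.1 ∧ cl (w p.1 p.2 - β p.2) = k.2 := by
        intro p hp
        simp only [hD, mem_filter] at hp
        rw [← hp.2]
        exact ⟨rfl, rfl⟩
      have hbip : ∀ p ∈ D, ∀ q ∈ D, p.1 ≠ q.2 := by
        intro p hp q hq h
        have hp1 := DE1 hp
        have hq1 := DE1 hq
        simp only [hE1, mem_filter] at hp1 hq1
        rw [h] at hp1
        rw [hq1.2.2] at hp1
        exact absurd hp1.2.1 (by simp)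
      apply hK D (DE1.trans E1E) (2 ^ k.1.1) (2 ^ k.2.1) hbip
      · intro p hp q hq h
        rcases winj p (E1E (DE1 hp)) q (E1E (DE1 hq)) h with h' | h'
        · exact h'
        · exact absurd (by rw [h']; rfl) (hbip p hp q hq)
      · intro p hp q hq h
        have e1 := (hk p hp).1
        have e2 := (hk q hq).1
        have h1 := hβ1 p (E1E (DE1 hp))
        have h2 := hβ1 q (E1E (DE1 hq))
        have h3 := cl_eq (e1.trans e2.symm)
        have h4 : Nat.log 2 (w q.1 q.2 - β q.1) = k.1.1 := congrArg Prod.fst e2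
        have h5 : β p.1 = β q.1 := by rw [h]
        rw [h4] at h3
        omega
      · intro p hp q hq h
        have e1 := (hk p hp).2
        have e2 := (hk q hq).2
        have h1 := hβ2 p (E1E (DE1 hp))
        have h2 := hβ2 q (E1E (DE1 hq))
        have h3 := cl_eq (e1.trans e2.symm)
        have h4 : Nat.log 2 (w q.1 q.2 - β q.2) = k.2.1 := congrArg Prod.fst e2
        have h5 : β p.2 = β q.2 := by rw [h]
        rw [h4] at h3
        omega
      · intro p hp
        have e1 := (hk p hp).1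
        have h1 := hβ1 p (E1E (DE1 hp))
        have h3 : 2 ^ Nat.log 2 (w p.1 p.2 - β p.1) ≤ w p.1 p.2 - β p.1 := cl_le (by omega)
        have h4 : Nat.log 2 (w p.1 p.2 - β p.1) = k.1.1 := congrArg Prod.fst e1
        rw [h4] at h3
        omega
      · intro p hp
        have e1 := (hk p hp).2
        have h1 := hβ2 p (E1E (DE1 hp))
        have h3 : 2 ^ Nat.log 2 (w p.1 p.2 - β p.2) ≤ w p.1 p.2 - β p.2 := cl_le (by omega)
        have h4 : Nat.log 2 (w p.1 p.2 - β p.2) = k.2.1 := congrArg Prod.fst e1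
        rw [h4] at h3
        omega
  rw [Finset.card_product, card_clset] at key
  omega

/-- Thresholds. -/
lemma exists_thr (P : V → ℕ → Prop) (M : ℕ) :
    ∃ θ : V → ℕ, (∀ v, θ v ≤ M) ∧ (∀ v, θ v < M → P v (θ v)) ∧ ∀ v, ∀ ℓ, ℓ < θ v → ¬ P v ℓ := by
  classical
  have h : ∀ v, ∃ ℓ, P v ℓ ∨ ℓ = M := fun v => ⟨M, Or.inr rfl⟩
  refine ⟨fun v => Nat.find (h v), ?_, ?_, ?_⟩
  · intro v
    exact Nat.find_min' (h v) (Or.inr rfl)
  · intro v hv
    rcases Nat.find_spec (h v) with h' | h'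
    · exact h'
    · have hv' : Nat.find (h v) < M := hv
      exact absurd h' (by omega)
  · intro v ℓ hl hP
    exact Nat.find_min (h v) hl (Or.inl hP)

/-- The graph-level theorem for patterns whose first edge is the smallest. -/
theorem pendant (R : ℕ → ℕ → ℕ → ℕ → Prop)
    (hR : ∀ b c d e, R b c d e → b ≠ c ∧ c ≠ d ∧ d ≠ e)
    (E : Finset (V × V)) (w : V → V → ℕ) (L K : ℕ)
    (irr : ∀ p ∈ E, p.1 ≠ p.2) (symm : ∀ p ∈ E, p.swap ∈ E)
    (wsymm : ∀ u v, w u v = w v u)
    (winj : ∀ p ∈ E, ∀ q ∈ E, w p.1 p.2 = w q.1 q.2 → p = q ∨ p = q.swap)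
    (wL : ∀ p ∈ E, w p.1 p.2 < 2 ^ L)
    (hK : ∀ (D : Finset (V × V)) (t : V × V → ℕ) (SX SY : ℕ), Good R D t SX SY →
      (∀ p ∈ D, t p < 2 ^ L) → #D ≤ K)
    (free : ∀ v0 v1 v2 v3 v4 v5 : V, [v0, v1, v2, v3, v4, v5].Nodup →
      (v0, v1) ∈ E → (v1, v2) ∈ E → (v2, v3) ∈ E → (v3, v4) ∈ E → (v4, v5) ∈ E →
      w v0 v1 < w v1 v2 → w v0 v1 < w v2 v3 → w v0 v1 < w v3 v4 → w v0 v1 < w v4 v5 →
      ¬ R (w v1 v2) (w v2 v3) (w v3 v4) (w v4 v5)) :
    #E ≤ 8 * Fintype.card V + 4 * ((4 * L * (4 * L)) * K) := by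
  classical
  obtain ⟨β, hβM, hβP, hβmin⟩ := exists_thr
    (fun v ℓ => 4 ≤ #{u : V | (v, u) ∈ E ∧ w v u ≤ ℓ}) (2 ^ L)
  -- dropped darts
  have drop : ∀ v : V, #{u : V | (v, u) ∈ E ∧ w v u ≤ β v} ≤ 4 := by
    intro v
    have h1 : #{u : V | (v, u) ∈ E ∧ w v u < β v} ≤ 3 := by
      rcases Nat.eq_zero_or_pos (β v) with h0 | h0
      · rw [h0]; simp
      · have := hβmin v (β v - 1) (by omega)
        have h2 : ({u : V | (v, u) ∈ E ∧ w v u < β v} : Finset V) =
            ({u : V | (v, u) ∈ E ∧ w v u ≤ β v - 1} : Finset V) := by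
          ext u
          simp only [mem_filter, mem_univ, true_and]
          constructor <;> rintro ⟨a, b⟩ <;> exact ⟨a, by omega⟩
        rw [h2]
        omega
    have h2 : #{u : V | (v, u) ∈ E ∧ w v u = β v} ≤ 1 := by
      rw [Finset.card_le_one]
      intro a ha b hb
      simp only [mem_filter, mem_univ, true_and] at ha hb
      rcases winj _ ha.1 _ hb.1 (ha.2.trans hb.2.symm) with h | h
      · exact congrArg Prod.snd h
      · exact absurd (congrArg Prod.fst h) (irr _ hb.1)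
    have h3 : ({u : V | (v, u) ∈ E ∧ w v u ≤ β v} : Finset V) ⊆
        ({u : V | (v, u) ∈ E ∧ w v u < β v} : Finset V) ∪
        ({u : V | (v, u) ∈ E ∧ w v u = β v} : Finset V) := by
      intro u hu
      simp only [mem_filter, mem_univ, true_and, mem_union] at hu ⊢
      rcases Nat.lt_or_ge (w v u) (β v) with h | h
      · exact Or.inl ⟨hu.1, h⟩
      · exact Or.inr ⟨hu.1, by omega⟩
    have h4 := (Finset.card_le_card h3).trans (Finset.card_union_le _ _)
    omega
  set E2 : Finset (V × V) := {p ∈ E | β p.1 < w p.1 p.2 ∧ β p.2 < w p.1 p.2} with hE2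
  have E2E : E2 ⊆ E := Finset.filter_subset _ _
  have d1 : #{p ∈ E | w p.1 p.2 ≤ β p.1} ≤ 4 * Fintype.card V := by
    have := card_le_of_fibers ({p ∈ E | w p.1 p.2 ≤ β p.1} : Finset (V × V)) Prod.fst univ
      (fun _ _ => Finset.mem_univ _) 4 (by
        intro v _
        refine le_trans ?_ (drop v)
        apply Finset.card_le_card_of_injOn Prod.snd
        · intro p hp
          rw [Finset.mem_coe] at hp ⊢
          simp only [mem_filter] at hp
          obtain ⟨⟨h1, h2⟩, h3⟩ := hp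
          subst h3
          simp only [mem_filter, mem_univ, true_and]
          exact ⟨h1, h2⟩
        · intro p hp q hq hpq
          rw [Finset.mem_coe] at hp hq
          simp only [mem_filter] at hp hq
          exact Prod.ext (hp.2.trans hq.2.symm) hpq)
    rw [Finset.card_univ] at this
    omega
  have d2 : #{p ∈ E | w p.1 p.2 ≤ β p.2} ≤ 4 * Fintype.card V := by
    refine le_trans ?_ d1
    apply Finset.card_le_card_of_injOn Prod.swap
    · intro p hp
      rw [Finset.mem_coe] at hp ⊢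
      simp only [mem_filter] at hp ⊢
      refine ⟨symm p hp.1, ?_⟩
      simp only [Prod.fst_swap, Prod.snd_swap]
      rw [wsymm]
      exact hp.2
    · exact Prod.swap_injective.injOn
  have hsplit : #E ≤ #{p ∈ E | w p.1 p.2 ≤ β p.1} + (#{p ∈ E | w p.1 p.2 ≤ β p.2} + #E2) := by
    have hsub : E ⊆ ({p ∈ E | w p.1 p.2 ≤ β p.1} : Finset (V × V)) ∪
        (({p ∈ E | w p.1 p.2 ≤ β p.2} : Finset (V × V)) ∪ E2) := by
      intro p hp
      simp only [mem_union, mem_filter, hE2]
      by_cases h1 : w p.1 p.2 ≤ β p.1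
      · exact Or.inl ⟨hp, h1⟩
      · by_cases h2 : w p.1 p.2 ≤ β p.2
        · exact Or.inr (Or.inl ⟨hp, h2⟩)
        · exact Or.inr (Or.inr ⟨hp, by omega, by omega⟩)
    have h1 := (Finset.card_le_card hsub).trans (Finset.card_union_le _ _)
    have h2 := Finset.card_union_le ({p ∈ E | w p.1 p.2 ≤ β p.2} : Finset (V × V)) E2
    omega
  -- the key forbidden configuration
  have forb : ∀ v1 v2 v3 v4 v5 : V, [v1, v2, v3, v4, v5].Nodup →
      (v1, v2) ∈ E → (v2, v3) ∈ E → (v3, v4) ∈ E → (v4, v5) ∈ E →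
      β v1 < w v1 v2 → β v1 < w v2 v3 → β v1 < w v3 v4 → β v1 < w v4 v5 →
      ¬ R (w v1 v2) (w v2 v3) (w v3 v4) (w v4 v5) := by
    intro v1 v2 v3 v4 v5 hnd e12 e23 e34 e45 h12 h23 h34 h45 hRR
    have hlt : β v1 < 2 ^ L := h12.trans (wL _ e12)
    have h4 := hβP v1 hlt
    have hcard : #({v3, v4, v5} : Finset V) ≤ 3 := Finset.card_le_three
    obtain ⟨v0, hv0, hv0'⟩ := Finset.exists_mem_notMem_of_card_lt_card
      (show #({v3, v4, v5} : Finset V) < #{u : V | (v1, u) ∈ E ∧ w v1 u ≤ β v1} by omega)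
    simp only [mem_filter, mem_univ, true_and] at hv0
    simp only [mem_insert, mem_singleton, not_or] at hv0'
    have n1 : v0 ≠ v1 := fun h => irr _ hv0.1 h.symm
    have n2 : v0 ≠ v2 := by
      intro h
      rw [h] at hv0
      omega
    have e01 : (v0, v1) ∈ E := symm _ hv0.1
    have hw := wsymm v0 v1
    refine free v0 v1 v2 v3 v4 v5 ?_ e01 e12 e23 e34 e45 (by omega) (by omega) (by omega)
      (by omega) hRR
    rw [List.nodup_cons]
    refine ⟨?_, hnd⟩
    simp only [List.mem_cons, List.not_mem_nil, or_false, not_or]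
    exact ⟨n1, n2, hv0'.1, hv0'.2.1, hv0'.2.2⟩
  have hE2K : #E2 ≤ 4 * ((4 * L * (4 * L)) * K) := by
    apply twosided E2 w β L K (fun p hp => irr p (E2E hp))
      (fun p hp q hq h => winj p (E2E hp) q (E2E hq) h) (fun p hp => wL p (E2E hp))
      (fun p hp => by simp only [hE2, mem_filter] at hp; exact hp.2.1)
      (fun p hp => by simp only [hE2, mem_filter] at hp; exact hp.2.2)
    intro D hDE SX SY bip inj wX wY aX aY
    apply hK D (fun p => w p.1 p.2) SX SY
    · refine ⟨inj, wX, wY, ?_, ?_⟩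
      · rintro ⟨x1, y1⟩ hb ⟨x2, y1'⟩ hc ⟨x2', y2⟩ hd ⟨x3, y2'⟩ he h1 h2 h3 hRR l1 l2 l3
        simp only at h1 h2 h3 hRR l1 l2 l3
        subst h1 h2 h3
        by_contra hne
        simp only at hne
        have hr := hR _ _ _ _ hRR
        have hb1 : ((x1, y1) : V × V) ≠ (x2, y1) := fun h => hr.1 (by rw [Prod.mk.injEq] at h; rw [h.1])
        have hc1 : ((x2, y1) : V × V) ≠ (x2, y2) := fun h => hr.2.1 (by rw [Prod.mk.injEq] at h; rw [h.2])
        have hd1 : ((x2, y2) : V × V) ≠ (x3, y2) := fun h => hr.2.2 (by rw [Prod.mk.injEq] at h; rw [h.1])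
        have m12 : x1 ≠ x2 := fun h => hb1 (by rw [h])
        have m23 : x2 ≠ x3 := fun h => hd1 (by rw [h])
        have k12 : y1 ≠ y2 := fun h => hc1 (by rw [h])
        have a1 := aX _ hb
        have a2 := wX _ hb _ hb rfl
        simp only at a1 a2
        have ws1 := wsymm y1 x2
        have ws2 := wsymm y2 x3
        apply forb x1 y1 x2 y2 x3 ?_ (E2E (hDE hb)) (symm _ (E2E (hDE hc))) (E2E (hDE hd))
          (symm _ (E2E (hDE he))) (by omega) (by omega) (by omega) (by omega)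
        · rw [ws1, ws2]; exact hRR
        · have b11 := bip _ hb _ hb
          have b12 := bip _ hb _ hd
          have b21 := bip _ hc _ hb
          have b22 := bip _ hc _ hd
          have b31 := bip _ he _ hb
          have b32 := bip _ he _ hd
          simp only at b11 b12 b21 b22 b31 b32
          simp only [List.nodup_cons, List.mem_cons, List.not_mem_nil, or_false, not_or,
            not_false_eq_true, List.nodup_nil, and_true]
          exact ⟨⟨b11, m12, b12, hne⟩, ⟨b21.symm, k12, b31.symm⟩, ⟨b22, m23⟩, b32.symm⟩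
      · rintro ⟨x1, y1⟩ hb ⟨x1', y2⟩ hc ⟨x2, y2'⟩ hd ⟨x2', y3⟩ he h1 h2 h3 hRR l1 l2 l3
        simp only at h1 h2 h3 hRR l1 l2 l3
        subst h1 h2 h3
        by_contra hne
        simp only at hne
        have hr := hR _ _ _ _ hRR
        have hb1 : ((x1, y1) : V × V) ≠ (x1, y2) := fun h => hr.1 (by rw [Prod.mk.injEq] at h; rw [h.2])
        have hc1 : ((x1, y2) : V × V) ≠ (x2, y2) := fun h => hr.2.1 (by rw [Prod.mk.injEq] at h; rw [h.1])
        have hd1 : ((x2, y2) : V × V) ≠ (x2, y3) := fun h => hr.2.2 (by rw [Prod.mk.injEq] at h; rw [h.2])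
        have m12 : x1 ≠ x2 := fun h => hc1 (by rw [h])
        have k12 : y1 ≠ y2 := fun h => hb1 (by rw [h])
        have k23 : y2 ≠ y3 := fun h => hd1 (by rw [h])
        have a1 := aY _ hb
        have a2 := wY _ hb _ hb rfl
        simp only at a1 a2
        have ws1 := wsymm y1 x1
        have ws2 := wsymm y2 x2
        apply forb y1 x1 y2 x2 y3 ?_ (symm _ (E2E (hDE hb))) (E2E (hDE hc))
          (symm _ (E2E (hDE hd))) (E2E (hDE he)) (by omega) (by omega) (by omega) (by omega)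
        · rw [ws1, ws2]; exact hRR
        · have b11 := bip _ hb _ hb
          have b12 := bip _ hb _ hc
          have b13 := bip _ hb _ he
          have b21 := bip _ hd _ hb
          have b22 := bip _ hd _ hc
          have b23 := bip _ hd _ he
          simp only at b11 b12 b13 b21 b22 b23
          simp only [List.nodup_cons, List.mem_cons, List.not_mem_nil, or_false, not_or,
            not_false_eq_true, List.nodup_nil, and_true]
          exact ⟨⟨b11.symm, k12, b21.symm, hne⟩, ⟨b12, m12, b13⟩, ⟨b22.symm, k23⟩, b23⟩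
    · intro p hp
      exact wL p (E2E (hDE hp))
  omega

end Pool.Agent.W5h10.EO
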