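import Pool.Agent.W5h10.EO.Graph

set_option autoImplicit false
set_option linter.unusedSectionVars false

open Finset

namespace Pool.Agent.W5h10.EO

variable {V : Type*} [Fintype V] [DecidableEq V]

lemma exists_sdr (T : Fin 4 → Finset V) (hT : ∀ i, 4 ≤ #(T i)) :
    ∃ g : Fin 4 → V, Function.Injective g ∧ ∀ i, g i ∈ T i := by
  apply (Finset.all_card_le_biUnion_card_iff_exists_injective T).1
  intro s
  rcases s.eq_empty_or_nonempty with h | ⟨i, hi⟩
  · simp [h]
  · have h1 : #s ≤ 4 := by
      have := Finset.card_le_univ s
      simpa using this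
    have h2 : #(T i) ≤ #(s.biUnion T) := Finset.card_le_card (Finset.subset_biUnion_of_mem T hi)
    exact h1.trans ((hT i).trans h2)

lemma exists_four {s : Finset (V × V)} (h : 4 ≤ #s) :
    ∃ f : Fin 4 → V × V, Function.Injective f ∧ ∀ i, f i ∈ s := by
  have h1 : Fintype.card (Fin 4) ≤ Fintype.card {x // x ∈ s} := by simpa using h
  obtain ⟨e⟩ := Function.Embedding.nonempty_of_card_le h1
  exact ⟨fun i => (e i).1, fun i j hij => e.injective (Subtype.ext hij), fun i => (e i).2⟩

/-- Four legs from `v` with all labels at most `ℓ`. -/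
def Legs (E : Finset (V × V)) (w : V → V → ℕ) (v : V) (ℓ : ℕ) : Prop :=
  ∃ f g : Fin 4 → V, Function.Injective f ∧ Function.Injective g ∧ (∀ i j, f i ≠ g j) ∧
    ∀ i, (v, f i) ∈ E ∧ (f i, g i) ∈ E ∧ g i ≠ v ∧ w v (f i) < w (f i) (g i) ∧
      w (f i) (g i) ≤ ℓ

/-- The graph-level theorem for `21453`. -/
theorem g21453 [Nonempty V] (E : Finset (V × V)) (w : V → V → ℕ) (L : ℕ)
    (irr : ∀ p ∈ E, p.1 ≠ p.2) (symm : ∀ p ∈ E, p.swap ∈ E)
    (wsymm : ∀ u v, w u v = w v u)
    (winj : ∀ p ∈ E, ∀ q ∈ E, w p.1 p.2 = w q.1 q.2 → p = q ∨ p = q.swap)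
    (wL : ∀ p ∈ E, w p.1 p.2 < 2 ^ L)
    (free : ∀ v0 v1 v2 v3 v4 v5 : V, [v0, v1, v2, v3, v4, v5].Nodup →
      (v0, v1) ∈ E → (v1, v2) ∈ E → (v2, v3) ∈ E → (v3, v4) ∈ E → (v4, v5) ∈ E →
      w v1 v2 < w v0 v1 → w v0 v1 < w v4 v5 → w v4 v5 < w v2 v3 → ¬ w v2 v3 < w v3 v4) :
    #E ≤ 24 * Fintype.card V + 4 * ((4 * L * (4 * L)) * (2 * Fintype.card V)) +
      2 * (4 * ((4 * L) * (3 * Fintype.card V + 4 * ((2 * L + 3) * Fintype.card V)))) := by
  classical
  obtain ⟨θ, hθM, hθP, hθmin⟩ := exists_thr (Legs E w) (2 ^ L)
  set n := Fintype.card V with hn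
  -- the key forbidden configuration
  have forb : ∀ v2 v3 v4 v5 : V, [v2, v3, v4, v5].Nodup →
      (v2, v3) ∈ E → (v3, v4) ∈ E → (v4, v5) ∈ E →
      θ v2 < w v4 v5 → w v4 v5 < w v2 v3 → ¬ w v2 v3 < w v3 v4 := by
    intro v2 v3 v4 v5 hnd e23 e34 e45 hθ h1 h2
    have hlt : θ v2 < 2 ^ L := hθ.trans (wL _ e45)
    obtain ⟨f, g, hf, hg, hfg, hl⟩ := hθP v2 hlt
    have hex : ∃ i, (∀ j : Fin 3, f i ≠ ![v3, v4, v5] j) ∧ ∀ j : Fin 3, g i ≠ ![v3, v4, v5] j := by
      by_contra hcon
      push Not at hcon
      have hJ : ∀ i, ∃ j : Fin 3, f i = ![v3, v4, v5] j ∨ g i = ![v3, v4, v5] j := by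
        intro i
        by_cases h : ∀ j : Fin 3, f i ≠ ![v3, v4, v5] j
        · obtain ⟨j, hj⟩ := hcon i h
          exact ⟨j, Or.inr hj⟩
        · push Not at h
          obtain ⟨j, hj⟩ := h
          exact ⟨j, Or.inl hj⟩
      choose J hJ using hJ
      obtain ⟨i, i', hne, heq⟩ := Fintype.exists_ne_map_eq_of_card_lt J (by simp)
      have hi := hJ i
      have hi' := hJ i'
      rw [← heq] at hi'
      rcases hi with hi | hi <;> rcases hi' with hi' | hi'
      · exact hne (hf (hi.trans hi'.symm))
      · exact hfg i i' (hi.trans hi'.symm)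
      · exact hfg i' i (hi'.trans hi.symm)
      · exact hne (hg (hi.trans hi'.symm))
    obtain ⟨i, hi1, hi2⟩ := hex
    have f3 : f i ≠ v3 := hi1 0
    have f4 : f i ≠ v4 := hi1 1
    have f5 : f i ≠ v5 := hi1 2
    have g3 : g i ≠ v3 := hi2 0
    have g4 : g i ≠ v4 := hi2 1
    have g5 : g i ≠ v5 := hi2 2
    obtain ⟨l1, l2, l3, l4, l5⟩ := hl i
    have hfv : f i ≠ v2 := fun h => irr _ l1 h.symm
    have ws1 := wsymm (f i) v2
    have ws2 := wsymm (g i) (f i)
    refine free (g i) (f i) v2 v3 v4 v5 ?_ (symm _ l2) (symm _ l1) e23 e34 e45 (by omega)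
      (by omega) h1 h2
    rw [List.nodup_cons, List.nodup_cons]
    refine ⟨?_, ?_, hnd⟩
    · simp only [List.mem_cons, List.not_mem_nil, or_false, not_or]
      exact ⟨(hfg i i).symm, l3, g3, g4, g5⟩
    · simp only [List.mem_cons, List.not_mem_nil, or_false, not_or]
      exact ⟨hfv, f3, f4, f5⟩
  -- LL
  set F : Finset (V × V) := {p ∈ E | w p.1 p.2 ≤ θ p.1 ∧ w p.1 p.2 ≤ θ p.2} with hF
  have FE : F ⊆ E := Finset.filter_subset _ _
  have Fswap : ∀ p ∈ F, p.swap ∈ F := by
    intro p hp
    simp only [hF, mem_filter] at hp ⊢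
    refine ⟨symm p hp.1, ?_⟩
    simp only [Prod.fst_swap, Prod.snd_swap]
    rw [wsymm]
    exact ⟨hp.2.2, hp.2.1⟩
  have Finj : ∀ p ∈ E, ∀ q ∈ E, p.1 = q.1 → w p.1 p.2 = w q.1 q.2 → p = q := by
    intro p hp q hq h1 h2
    rcases winj p hp q hq h2 with h | h
    · exact h
    · exfalso
      have h3 : p.1 = q.2 := by rw [h]; rfl
      exact irr q hq (h1.symm.trans h3)
  let fm : V → ℕ := fun v => ({p ∈ F | p.1 = v} : Finset (V × V)).sup (fun p => w p.1 p.2)
  have hfm : ∀ p ∈ F, w p.1 p.2 ≤ fm p.1 := by
    intro p hp
    exact Finset.le_sup (f := fun p : V × V => w p.1 p.2) (by simp [hp])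
  have hfmθ : ∀ v, fm v ≤ θ v := by
    intro v
    simp only [fm]
    rw [Finset.sup_le_iff]
    intro p hp
    simp only [mem_filter, hF] at hp
    rw [← hp.2]
    exact hp.1.2.1
  set Bad : Finset (V × V) := {p ∈ F | 8 ≤ #{e ∈ F | e.1 = p.2 ∧ w p.1 p.2 < w e.1 e.2 ∧
    w e.1 e.2 < fm p.1}} with hBad
  have cBad : #Bad ≤ 3 * n := by
    have := card_le_of_fibers Bad Prod.fst univ (fun _ _ => Finset.mem_univ _) 3 (by
      intro v _
      by_contra hcon
      push Not at hcon
      obtain ⟨b, hb, hbm⟩ := exists_four (show 4 ≤ #{a ∈ Bad | a.1 = v} by omega)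
      have hb1 : ∀ i, b i ∈ Bad ∧ (b i).1 = v := by
        intro i
        have := hbm i
        simp only [mem_filter] at this
        exact this
      have hinj : Function.Injective (fun i => (b i).2) := by
        intro i j hij
        exact hb (Prod.ext ((hb1 i).2.trans (hb1 j).2.symm) hij)
      obtain ⟨g, hg, hgm⟩ := exists_sdr (fun i =>
        ({u : V | ((b i).2, u) ∈ F ∧ w v (b i).2 < w (b i).2 u ∧ w (b i).2 u < fm v} : Finset V)
          \ (univ.image (fun j => (b j).2))) (by
        intro i
        have h8 := (hb1 i).1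
        simp only [hBad, mem_filter] at h8
        have h9 : #{e ∈ F | e.1 = (b i).2 ∧ w (b i).1 (b i).2 < w e.1 e.2 ∧
            w e.1 e.2 < fm (b i).1} ≤
            #{u : V | ((b i).2, u) ∈ F ∧ w v (b i).2 < w (b i).2 u ∧ w (b i).2 u < fm v} := by
          apply Finset.card_le_card_of_injOn Prod.snd
          · rintro ⟨e1, e2⟩ he
            rw [Finset.mem_coe] at he ⊢
            simp only [mem_filter] at he
            obtain ⟨he1, he2, he3, he4⟩ := he
            subst he2
            simp only [mem_filter, mem_univ, true_and]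
            rw [← (hb1 i).2]
            exact ⟨he1, he3, he4⟩
          · intro p hp q hq hpq
            rw [Finset.mem_coe] at hp hq
            simp only [mem_filter] at hp hq
            exact Prod.ext (hp.2.1.trans hq.2.1.symm) hpq
        have h10 : #(univ.image (fun j => (b j).2)) ≤ 4 := by
          refine Finset.card_image_le.trans ?_
          simp
        have h11 := Finset.le_card_sdiff (univ.image (fun j => (b j).2))
          ({u : V | ((b i).2, u) ∈ F ∧ w v (b i).2 < w (b i).2 u ∧ w (b i).2 u < fm v} : Finset V)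
        omega)
      have hmem : ∀ i, ((b i).2, g i) ∈ F ∧ w v (b i).2 < w (b i).2 (g i) ∧
          w (b i).2 (g i) < fm v ∧ ∀ j, (b j).2 ≠ g i := by
        intro i
        have := hgm i
        simp only [mem_sdiff, mem_filter, mem_univ, true_and, mem_image, not_exists] at this
        exact ⟨this.1.1, this.1.2.1, this.1.2.2, this.2⟩
      have hθv := hfmθ v
      have h0 := (hmem 0).2.2.1
      apply hθmin v (fm v - 1) (by omega)
      refine ⟨fun i => (b i).2, g, hinj, hg, ?_, ?_⟩
      · intro i j
        exact (hmem j).2.2.2 i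
      · intro i
        obtain ⟨m1, m2, m3, m4⟩ := hmem i
        have hbi := (hb1 i).1
        simp only [hBad, mem_filter] at hbi
        have hbE : (v, (b i).2) ∈ E := by
          have := FE hbi.1
          rw [← (hb1 i).2]
          exact this
        refine ⟨hbE, FE m1, ?_, m2, (by show w (b i).2 (g i) ≤ fm v - 1; omega)⟩
        intro h
        rw [h] at m2
        have := wsymm v (b i).2
        omega)
    rw [Finset.card_univ] at this
    omega
  set Few : Finset (V × V) := {c ∈ F | #{e ∈ F | e.1 = c.1 ∧ w c.1 c.2 < w e.1 e.2} < 9}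
    with hFew
  have cFew : #Few ≤ 9 * n :=
    few_succ F (fun p => w p.1 p.2) Prod.fst
      (fun p hp q hq h1 h2 => Finj p (FE hp) q (FE hq) h1 h2) 9
  have good : ∀ p ∈ F, p ∉ Bad → fm p.2 ≤ fm p.1 → p.swap ∈ Few := by
    intro p hp hpb hle
    simp only [hFew, mem_filter]
    refine ⟨Fswap p hp, ?_⟩
    simp only [Prod.fst_swap, Prod.snd_swap]
    have h1 : #{e ∈ F | e.1 = p.2 ∧ w p.1 p.2 < w e.1 e.2 ∧ w e.1 e.2 < fm p.1} < 8 := by
      by_contra hcon
      exact hpb (by simp only [hBad, mem_filter]; exact ⟨hp, by omega⟩)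
    have h2 : #{e ∈ F | e.1 = p.2 ∧ w e.1 e.2 = fm p.1} ≤ 1 := by
      rw [Finset.card_le_one]
      intro a ha b hb
      simp only [mem_filter] at ha hb
      exact Finj a (FE ha.1) b (FE hb.1) (ha.2.1.trans hb.2.1.symm) (ha.2.2.trans hb.2.2.symm)
    have h3 : ({e ∈ F | e.1 = p.2 ∧ w p.2 p.1 < w e.1 e.2} : Finset (V × V)) ⊆
        ({e ∈ F | e.1 = p.2 ∧ w p.1 p.2 < w e.1 e.2 ∧ w e.1 e.2 < fm p.1} : Finset (V × V)) ∪
        ({e ∈ F | e.1 = p.2 ∧ w e.1 e.2 = fm p.1} : Finset (V × V)) := by
      intro e he
      simp only [mem_filter, mem_union] at he ⊢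
      have h4 := hfm e he.1
      rw [he.2.1] at h4
      have h5 := wsymm p.1 p.2
      have h6 : w p.2 e.2 = w e.1 e.2 := by rw [he.2.1]
      rcases Nat.lt_or_ge (w e.1 e.2) (fm p.1) with h | h
      · exact Or.inl ⟨he.1, he.2.1, by omega, h⟩
      · exact Or.inr ⟨he.1, he.2.1, by omega⟩
    have h4 := (Finset.card_le_card h3).trans (Finset.card_union_le _ _)
    omega
  have cF : #F ≤ 24 * n := by
    have hsub : F ⊆ (Bad ∪ Bad.image Prod.swap) ∪ (Few ∪ Few.image Prod.swap) := by
      intro p hp
      simp only [mem_union, mem_image]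
      by_cases h1 : p ∈ Bad
      · exact Or.inl (Or.inl h1)
      by_cases h2 : p.swap ∈ Bad
      · exact Or.inl (Or.inr ⟨p.swap, h2, Prod.swap_swap p⟩)
      rcases Nat.le_total (fm p.2) (fm p.1) with h | h
      · exact Or.inr (Or.inr ⟨p.swap, good p hp h1 h, Prod.swap_swap p⟩)
      · have := good p.swap (Fswap p hp) h2 h
        rw [Prod.swap_swap] at this
        exact Or.inr (Or.inl this)
    have h0 := (Finset.card_le_card hsub).trans (Finset.card_union_le _ _)
    have h1 := Finset.card_union_le Bad (Bad.image Prod.swap)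
    have h2 := Finset.card_union_le Few (Few.image Prod.swap)
    rw [Finset.card_image_of_injective _ Prod.swap_injective] at h1 h2
    omega
  -- HH
  set H : Finset (V × V) := {p ∈ E | θ p.1 < w p.1 p.2 ∧ θ p.2 < w p.1 p.2} with hH
  have HE : H ⊆ E := Finset.filter_subset _ _
  have cH : #H ≤ 4 * ((4 * L * (4 * L)) * (2 * n)) := by
    apply twosided H w θ L (2 * n) (fun p hp => irr p (HE hp))
      (fun p hp q hq h => winj p (HE hp) q (HE hq) h) (fun p hp => wL p (HE hp))
      (fun p hp => by simp only [hH, mem_filter] at hp; exact hp.2.1)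
      (fun p hp => by simp only [hH, mem_filter] at hp; exact hp.2.2)
    intro D hDE SX SY bip inj wX wY aX aY
    apply abs21453HH D (fun p => w p.1 p.2) inj
    · rintro ⟨x1, y1⟩ hc ⟨x2, y1'⟩ hd ⟨x2', y2⟩ he h1 h2 h3 h4
      simp only at h1 h2 h3 h4
      subst h1 h2
      have m12 : x1 ≠ x2 := by
        intro h
        rw [h] at h4
        omega
      have k12 : y1 ≠ y2 := by
        intro h
        rw [h] at h3 h4
        omega
      have a1 := aX _ hc
      have a2 := wX _ hd _ he rfl
      simp only at a1 a2
      have ws1 := wsymm y1 x2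
      have b11 := bip _ hc _ hc
      have b12 := bip _ hc _ he
      have b21 := bip _ hd _ hc
      have b22 := bip _ hd _ he
      simp only at b11 b12 b21 b22
      apply forb x1 y1 x2 y2 ?_ (HE (hDE hc)) (symm _ (HE (hDE hd))) (HE (hDE he))
        (by omega) (by omega) (by omega)
      simp only [List.nodup_cons, List.mem_cons, List.not_mem_nil, or_false, not_or,
        not_false_eq_true, List.nodup_nil, and_true]
      exact ⟨⟨b11, m12, b12⟩, ⟨b21.symm, k12⟩, b22⟩
    · rintro ⟨x1, y1⟩ hc ⟨x1', y2⟩ hd ⟨x2, y2'⟩ he h1 h2 h3 h4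
      simp only at h1 h2 h3 h4
      subst h1 h2
      have k12 : y1 ≠ y2 := by
        intro h
        rw [h] at h4
        omega
      have m12 : x1 ≠ x2 := by
        intro h
        rw [h] at h3 h4
        omega
      have a1 := aY _ hc
      have a2 := wY _ hd _ he rfl
      simp only at a1 a2
      have ws1 := wsymm y1 x1
      have ws2 := wsymm y2 x2
      have b11 := bip _ hc _ hc
      have b12 := bip _ hc _ hd
      have b21 := bip _ he _ hc
      have b22 := bip _ he _ hd
      simp only at b11 b12 b21 b22
      apply forb y1 x1 y2 x2 ?_ (symm _ (HE (hDE hc))) (HE (hDE hd)) (symm _ (HE (hDE he)))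
        (by omega) (by omega) (by omega)
      simp only [List.nodup_cons, List.mem_cons, List.not_mem_nil, or_false, not_or,
        not_false_eq_true, List.nodup_nil, and_true]
      exact ⟨⟨b11.symm, k12, b21.symm⟩, ⟨b12, m12⟩, b22.symm⟩
  -- LH
  set M : Finset (V × V) := {p ∈ E | w p.1 p.2 ≤ θ p.1 ∧ θ p.2 < w p.1 p.2} with hM
  have ME : M ⊆ E := Finset.filter_subset _ _
  have cM : #M ≤ 4 * ((4 * L) * (3 * n + 4 * ((2 * L + 3) * n))) := by
    obtain ⟨c, hc⟩ := exists_cut M (fun p hp => irr p (ME hp))
    set M1 : Finset (V × V) := {p ∈ M | c p.1 = true ∧ c p.2 = false} with hM1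
    have M1M : M1 ⊆ M := Finset.filter_subset _ _
    have M1E : M1 ⊆ E := M1M.trans ME
    have key : #M1 ≤ #(range L ×ˢ Ico 4 8) * (3 * n + 4 * ((2 * L + 3) * n)) := by
      apply card_le_of_fibers M1 (fun p => cl (w p.1 p.2 - θ p.2))
      · intro p hp
        have h1 := M1M hp
        simp only [hM, mem_filter] at h1
        have h3 := wL p (M1E hp)
        exact cl_mem (by omega) (by omega)
      · intro k _
        set D : Finset (V × V) := {p ∈ M1 | cl (w p.1 p.2 - θ p.2) = k} with hD
        have DM1 : D ⊆ M1 := Finset.filter_subset _ _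
        have DE : D ⊆ E := DM1.trans M1E
        have hk : ∀ p ∈ D, cl (w p.1 p.2 - θ p.2) = k := by
          intro p hp
          simp only [hD, mem_filter] at hp
          exact hp.2
        have hlow : ∀ p ∈ D, w p.1 p.2 ≤ θ p.1 := by
          intro p hp
          have h1 := M1M (DM1 hp)
          simp only [hM, mem_filter] at h1
          exact h1.2.1
        have hhigh : ∀ p ∈ D, θ p.2 < w p.1 p.2 := by
          intro p hp
          have h1 := M1M (DM1 hp)
          simp only [hM, mem_filter] at h1
          exact h1.2.2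
        have bip : ∀ p ∈ D, ∀ q ∈ D, p.1 ≠ q.2 := by
          intro p hp q hq h
          have hp1 := DM1 hp
          have hq1 := DM1 hq
          simp only [hM1, mem_filter] at hp1 hq1
          rw [h] at hp1
          rw [hq1.2.2] at hp1
          exact absurd hp1.2.1 (by simp)
        have inj : ∀ p ∈ D, ∀ q ∈ D, w p.1 p.2 = w q.1 q.2 → p = q := by
          intro p hp q hq h
          rcases winj p (DE hp) q (DE hq) h with h' | h'
          · exact h'
          · exact absurd (by rw [h']; rfl) (bip p hp q hq)
        have wY : ∀ p ∈ D, ∀ q ∈ D, p.2 = q.2 → 4 * w p.1 p.2 < 4 * w q.1 q.2 + 2 ^ k.1 := by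
          intro p hp q hq h
          have e1 := hk p hp
          have e2 := hk q hq
          have h1 := hhigh p hp
          have h2 := hhigh q hq
          have h3 := cl_eq (e1.trans e2.symm)
          have h4 : Nat.log 2 (w q.1 q.2 - θ q.2) = k.1 := congrArg Prod.fst e2
          have h5 : θ p.2 = θ q.2 := by rw [h]
          rw [h4] at h3
          omega
        have aY : ∀ p ∈ D, θ p.2 + 2 ^ k.1 ≤ w p.1 p.2 := by
          intro p hp
          have e1 := hk p hp
          have h1 := hhigh p hp
          have h3 : 2 ^ Nat.log 2 (w p.1 p.2 - θ p.2) ≤ w p.1 p.2 - θ p.2 := cl_le (by omega)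
          have h4 : Nat.log 2 (w p.1 p.2 - θ p.2) = k.1 := congrArg Prod.fst e1
          rw [h4] at h3
          omega
        let t : V × V → ℕ := fun p => w p.1 p.2
        let fx : V → ℕ := fun v => ({p ∈ D | p.1 = v} : Finset (V × V)).sup t
        have hfx : ∀ p ∈ D, t p ≤ fx p.1 := by
          intro p hp
          exact Finset.le_sup (f := t) (by simp [hp])
        have hfxθ : ∀ v, fx v ≤ θ v := by
          intro v
          simp only [fx]
          rw [Finset.sup_le_iff]
          intro p hp
          simp only [mem_filter] at hp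
          rw [← hp.2]
          exact hlow p hp.1
        have hfxattain : ∀ p ∈ D, ∃ e ∈ D, e.1 = p.1 ∧ t e = fx p.1 := by
          intro p hp
          obtain ⟨e, he, hmax⟩ := Finset.exists_max_image {e ∈ D | e.1 = p.1} t
            ⟨p, by simp [hp]⟩
          simp only [mem_filter] at he hmax
          refine ⟨e, he.1, he.2, ?_⟩
          apply le_antisymm
          · rw [← he.2]; exact hfx e he.1
          · simp only [fx]
            rw [Finset.sup_le_iff]
            intro b hb
            simp only [mem_filter] at hb
            exact hmax b hb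
        set Bd : Finset (V × V) := {p ∈ D | 4 ≤ #{e ∈ D | e.2 = p.2 ∧ t p < t e ∧
          t e < fx p.1}} with hBd
        have BdD : Bd ⊆ D := Finset.filter_subset _ _
        have cBd : #Bd ≤ 3 * n := by
          have := card_le_of_fibers Bd Prod.fst univ (fun _ _ => Finset.mem_univ _) 3 (by
            intro v _
            by_contra hcon
            push Not at hcon
            obtain ⟨b, hb, hbm⟩ := exists_four (show 4 ≤ #{a ∈ Bd | a.1 = v} by omega)
            have hb1 : ∀ i, b i ∈ Bd ∧ (b i).1 = v := by
              intro i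
              have := hbm i
              simp only [mem_filter] at this
              exact this
            have hinj : Function.Injective (fun i => (b i).2) := by
              intro i j hij
              exact hb (Prod.ext ((hb1 i).2.trans (hb1 j).2.symm) hij)
            obtain ⟨g, hg, hgm⟩ := exists_sdr (fun i =>
              ({u : V | (u, (b i).2) ∈ D ∧ w v (b i).2 < w u (b i).2 ∧ w u (b i).2 < fx v} :
                Finset V)) (by
              intro i
              have h8 := (hb1 i).1
              simp only [hBd, mem_filter] at h8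
              refine h8.2.trans ?_
              apply Finset.card_le_card_of_injOn Prod.fst
              · rintro ⟨e1, e2⟩ he
                rw [Finset.mem_coe] at he ⊢
                simp only [mem_filter, t] at he
                obtain ⟨he1, he2, he3, he4⟩ := he
                subst he2
                simp only [mem_filter, mem_univ, true_and]
                rw [← (hb1 i).2]
                exact ⟨he1, he3, he4⟩
              · intro p hp q hq hpq
                rw [Finset.mem_coe] at hp hq
                simp only [mem_filter] at hp hq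
                exact Prod.ext hpq (hp.2.1.trans hq.2.1.symm))
            have hmem : ∀ i, (g i, (b i).2) ∈ D ∧ w v (b i).2 < w (g i) (b i).2 ∧
                w (g i) (b i).2 < fx v := by
              intro i
              have := hgm i
              simp only [mem_filter, mem_univ, true_and] at this
              exact this
            have hθv := hfxθ v
            have h0 := (hmem 0).2.2
            apply hθmin v (fx v - 1) (by omega)
            refine ⟨fun i => (b i).2, g, hinj, hg, ?_, ?_⟩
            · intro i j h
              exact bip _ (hmem j).1 _ (BdD (hb1 i).1) h.symm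
            · intro i
              obtain ⟨m1, m2, m3⟩ := hmem i
              have hbE : (v, (b i).2) ∈ E := by
                have := DE (BdD (hb1 i).1)
                rw [← (hb1 i).2]
                exact this
              have ws := wsymm (b i).2 (g i)
              refine ⟨hbE, symm _ (DE m1), ?_, (by show w v (b i).2 < w (b i).2 (g i); omega),
                (by show w (b i).2 (g i) ≤ fx v - 1; omega)⟩
              intro h
              rw [h] at m2
              omega)
          rw [Finset.card_univ] at this
          omega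
        set D1 : Finset (V × V) := D \ Bd with hD1
        have D1D : D1 ⊆ D := Finset.sdiff_subset
        obtain ⟨D2, hD2, hc2, ht2⟩ := thin D1 t (Prod.snd : V × V → V) 4 (by norm_num)
        have D2D : D2 ⊆ D := hD2.trans D1D
        have cD2 : #D2 ≤ (2 * L + 3) * n := by
          apply abs21453LH D2 t fx L
          · intro p hp q hq h
            exact inj p (D2D hp) q (D2D hq) h
          · intro p hp
            exact hfx p (D2D hp)
          · intro p hp
            obtain ⟨e, he, _, he3⟩ := hfxattain p (D2D hp)
            rw [← he3]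
            exact wL e (DE he)
          · intro b hb b' hb' hbb' hlt
            have h4 := ht2 b hb b' hb' hbb' hlt
            have hbnot : b ∉ Bd := by
              have := hD2 hb
              rw [hD1, mem_sdiff] at this
              exact this.2
            by_contra hcon
            have hne : t b' < fx b.1 := by
              rcases Nat.lt_or_ge (t b') (fx b.1) with h | h
              · exact h
              · exfalso
                obtain ⟨e, he, he2, he3⟩ := hfxattain b (D2D hb)
                have h5 : e = b' := inj e he b' (D2D hb') (by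
                  show t e = t b'
                  omega)
                have h6 : b = b' := Prod.ext (by rw [← h5, he2]) hbb'
                rw [h6] at hlt
                omega
            apply hbnot
            simp only [hBd, mem_filter]
            refine ⟨D2D hb, h4.trans (Finset.card_le_card ?_)⟩
            intro e he
            simp only [mem_filter] at he ⊢
            exact ⟨D1D he.1, he.2.1, he.2.2.1, by omega⟩
          · rintro ⟨x1, y1⟩ hc' ⟨x1', y2⟩ hd' ⟨x2, y2'⟩ he' h1 h2 h3 h4
            simp only [t] at h1 h2 h3 h4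
            subst h1 h2
            have hc := D2D hc'
            have hd := D2D hd'
            have he := D2D he'
            have k12 : y1 ≠ y2 := by
              intro h
              rw [h] at h4
              omega
            have m12 : x1 ≠ x2 := by
              intro h
              rw [h] at h3 h4
              omega
            have a1 := aY _ hc
            have a2 := wY _ hd _ he rfl
            simp only at a1 a2
            have ws1 := wsymm y1 x1
            have ws2 := wsymm y2 x2
            have b11 := bip _ hc _ hc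
            have b12 := bip _ hc _ hd
            have b21 := bip _ he _ hc
            have b22 := bip _ he _ hd
            simp only at b11 b12 b21 b22
            apply forb y1 x1 y2 x2 ?_ (symm _ (DE hc)) (DE hd) (symm _ (DE he))
              (by omega) (by omega) (by omega)
            simp only [List.nodup_cons, List.mem_cons, List.not_mem_nil, or_false, not_or,
              not_false_eq_true, List.nodup_nil, and_true]
            exact ⟨⟨b11.symm, k12, b21.symm⟩, ⟨b12, m12⟩, b22.symm⟩
        have h5 : #D ≤ #D1 + #Bd := by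
          have h6 : D ⊆ D1 ∪ Bd := by
            intro p hp
            rw [mem_union, hD1, mem_sdiff]
            by_cases h : p ∈ Bd
            · exact Or.inr h
            · exact Or.inl ⟨hp, h⟩
          exact (Finset.card_le_card h6).trans (Finset.card_union_le _ _)
        omega
    rw [card_clset] at key
    have : #M ≤ 4 * #M1 := hc
    exact this.trans (Nat.mul_le_mul_left 4 key)
  have hcover : E ⊆ (F ∪ H) ∪ (M ∪ M.image Prod.swap) := by
    intro p hp
    simp only [mem_union, mem_image, hF, hH, mem_filter]
    by_cases h1 : w p.1 p.2 ≤ θ p.1 <;> by_cases h2 : w p.1 p.2 ≤ θ p.2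
    · exact Or.inl (Or.inl ⟨hp, h1, h2⟩)
    · right; left; simp only [hM, mem_filter]; exact ⟨hp, h1, by omega⟩
    · right; right
      refine ⟨p.swap, ?_, Prod.swap_swap p⟩
      simp only [hM, mem_filter, Prod.fst_swap, Prod.snd_swap]
      rw [wsymm]
      exact ⟨symm p hp, h2, by omega⟩
    · exact Or.inl (Or.inr ⟨hp, by omega, by omega⟩)
  have h0 := (Finset.card_le_card hcover).trans (Finset.card_union_le _ _)
  have h1 := Finset.card_union_le F H
  have h2 := Finset.card_union_le M (M.image Prod.swap)
  rw [Finset.card_image_of_injective _ Prod.swap_injective] at h2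
  omega

end Pool.Agent.W5h10.EO
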